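import Mathlib

/-!
# Bol loops of exponent two: basic facts and labelled systems
-/

set_option autoImplicit false

namespace Pool.Agent.K7.H87.BL

universe u v w

/-- (Right) Bol loops of exponent two: a set with a product and an element `1` such that `1` is
neutral, the equations `a x = b` and `y a = b` have unique solutions,
`((x y) z) y = x ((y z) y)` and `x x = 1`. -/
class BolLoop (L : Type u) extends Mul L, One L where
  one_mul' : ∀ x : L, 1 * x = x
  mul_one' : ∀ x : L, x * 1 = x
  ldiv : ∀ a b : L, ∃! x : L, a * x = b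
  rdiv : ∀ a b : L, ∃! y : L, y * a = b
  bol : ∀ x y z : L, ((x * y) * z) * y = x * ((y * z) * y)
  sq : ∀ x : L, x * x = 1

/-- Subloops: subsets which contain `1` and are closed under the product and both divisions. -/
structure Subloop (L : Type u) [BolLoop L] where
  carrier : Set L
  one_mem : (1 : L) ∈ carrier
  mul_mem : ∀ x ∈ carrier, ∀ y ∈ carrier, x * y ∈ carrier
  ldiv_mem : ∀ a ∈ carrier, ∀ b ∈ carrier, ∀ x : L, a * x = b → x ∈ carrier
  rdiv_mem : ∀ a ∈ carrier, ∀ b ∈ carrier, ∀ y : L, y * a = b → y ∈ carrier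

section basic

variable {Q : Type u} [BolLoop Q]

theorem one_mul' (x : Q) : 1 * x = x := BolLoop.one_mul' x
theorem mul_one' (x : Q) : x * 1 = x := BolLoop.mul_one' x
theorem sq (x : Q) : x * x = 1 := BolLoop.sq x
theorem bol (x y z : Q) : ((x * y) * z) * y = x * ((y * z) * y) := BolLoop.bol x y z

theorem rr (x y : Q) : (x * y) * y = x := by
  have h := bol x y 1
  rw [mul_one', mul_one', sq, mul_one'] at h
  exact h

theorem lcan {a x y : Q} (h : a * x = a * y) : x = y := by
  obtain ⟨c, -, hc⟩ := BolLoop.ldiv a (a * x)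
  rw [hc x rfl, hc y h.symm]

theorem rcan {a x y : Q} (h : x * a = y * a) : x = y := by
  have := congrArg (· * a) h
  simpa only [rr] using this

theorem eq_of_mul {x y : Q} (h : x * y = 1) : y = x := lcan (h.trans (sq x).symm)

theorem cj2 (m a : Q) : (m * ((m * a) * m)) * m = a := by
  apply lcan (a := (1 : Q))
  rw [← bol, ← bol, rr, rr]

variable (T : Subloop Q)

theorem cj_mem {m a : Q} (hm : m ∈ T.carrier) : (m * a) * m ∈ T.carrier ↔ a ∈ T.carrier := by
  have h1 : ∀ b ∈ T.carrier, (m * b) * m ∈ T.carrier := fun b hb =>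
    T.mul_mem _ (T.mul_mem _ hm _ hb) _ hm
  refine ⟨fun h => ?_, h1 a⟩
  rw [← cj2 m a]
  exact h1 _ h

end basic

section sys

variable {Z : Type v}

open Classical in
/-- the move in the chamber -/
noncomputable def ds (wl : List Z → Z → Prop) (z : Z) (δ : List Z) : List Z :=
  if δ.head? = some z then δ.tail else if wl δ z then δ else z :: δ

open Classical in
/-- the label which is used in the move -/
noncomputable def yy (z : Z) (δ : List Z) : List Z := if δ.head? = some z then δ else z :: δ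

/-- the chamber -/
def Din (wl : List Z → Z → Prop) : List Z → Prop
  | [] => True
  | z :: δ => Din wl δ ∧ δ.head? ≠ some z ∧ ¬ wl δ z

variable {wl : List Z → Z → Prop}

/-- the cases of a move -/
theorem ds_cases (z : Z) {δ : List Z} (h : Din wl δ) :
    (∃ δ', δ = z :: δ' ∧ Din wl δ' ∧ δ'.head? ≠ some z ∧ ¬ wl δ' z ∧ ds wl z δ = δ' ∧
      yy z δ = z :: δ') ∨
    (δ.head? ≠ some z ∧ wl δ z ∧ ds wl z δ = δ ∧ yy z δ = z :: δ) ∨
    (δ.head? ≠ some z ∧ ¬ wl δ z ∧ ds wl z δ = z :: δ ∧ yy z δ = z :: δ) := by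
  by_cases h1 : δ.head? = some z
  · left
    cases δ with
    | nil => simp at h1
    | cons y δ' =>
      simp only [List.head?_cons, Option.some.injEq] at h1
      subst h1
      exact ⟨δ', rfl, h.1, h.2.1, h.2.2, by simp [ds], by simp [yy]⟩
  · right
    by_cases h2 : wl δ z
    · left
      exact ⟨h1, h2, by simp [ds, h1, h2], by simp [yy, h1]⟩
    · right
      exact ⟨h1, h2, by simp [ds, h1, h2], by simp [yy, h1]⟩

theorem ds_din (z : Z) {δ : List Z} (h : Din wl δ) : Din wl (ds wl z δ) := by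
  rcases ds_cases z h with ⟨δ', e, h1, -, -, h2, -⟩ | ⟨h1, h2, h3, -⟩ | ⟨h1, h2, h3, -⟩
  · rw [h2]; exact h1
  · rw [h3]; exact h
  · rw [h3]; exact ⟨h, h1, h2⟩

theorem ds_head (z : Z) (δ : List Z) : ds wl z (z :: δ) = δ := by simp [ds]

theorem yy_head (z : Z) (δ : List Z) : yy z (z :: δ) = z :: δ := by simp [yy]

theorem ds_ds (z : Z) {δ : List Z} (h : Din wl δ) : ds wl z (ds wl z δ) = δ := by
  rcases ds_cases z h with ⟨δ', e, h1, h2, h3, h4, -⟩ | ⟨h1, h2, h3, -⟩ | ⟨h1, h2, h3, -⟩
  · rw [h4, e]; simp [ds, h2, h3]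
  · rw [h3, h3]
  · rw [h3, ds_head]

theorem yy_ds (z : Z) {δ : List Z} (h : Din wl δ) : yy z (ds wl z δ) = yy z δ := by
  rcases ds_cases z h with ⟨δ', e, h1, h2, h3, h4, h5⟩ | ⟨h1, h2, h3, -⟩ | ⟨h1, h2, h3, h4⟩
  · rw [h4, h5]; simp [yy, h2]
  · rw [h3]
  · rw [h3, h4, yy_head]

/-- valid labels -/
def VL (wl : List Z → Z → Prop) (y : List Z) : Prop :=
  ∃ z δ, y = z :: δ ∧ Din wl δ ∧ δ.head? ≠ some z

theorem vl_yy (z : Z) {δ : List Z} (h : Din wl δ) :
    VL wl (yy z δ) ∧ (yy z δ).head? = some z := by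
  rcases ds_cases z h with ⟨δ', e, h1, h2, h3, h4, h5⟩ | ⟨h1, h2, h3, h4⟩ | ⟨h1, h2, h3, h4⟩
  · rw [h5]; exact ⟨⟨z, δ', rfl, h1, h2⟩, rfl⟩
  · rw [h4]; exact ⟨⟨z, δ, rfl, h, h1⟩, rfl⟩
  · rw [h4]; exact ⟨⟨z, δ, rfl, h, h1⟩, rfl⟩

/-- forward run in the chamber -/
noncomputable def dn (wl : List Z → Z → Prop) : List Z → List Z → List Z
  | [], δ => δ
  | z :: l, δ => ds wl z (dn wl l δ)

/-- backward run in the chamber -/
noncomputable def di (wl : List Z → Z → Prop) : List Z → List Z → List Z
  | [], δ => δ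
  | z :: l, δ => di wl l (ds wl z δ)

theorem dn_din (l : List Z) {δ : List Z} (h : Din wl δ) : Din wl (dn wl l δ) := by
  induction l with
  | nil => exact h
  | cons z l ih => exact ds_din z ih

theorem di_din (l : List Z) : ∀ {δ : List Z}, Din wl δ → Din wl (di wl l δ) := by
  induction l with
  | nil => intro δ h; exact h
  | cons z l ih => intro δ h; exact ih (ds_din z h)

theorem dn_di (l : List Z) : ∀ {δ : List Z}, Din wl δ → dn wl l (di wl l δ) = δ := by
  induction l with
  | nil => intro δ h; rfl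
  | cons z l ih =>
    intro δ h
    show ds wl z (dn wl l (di wl l (ds wl z δ))) = δ
    rw [ih (ds_din z h), ds_ds z h]

theorem di_dn (l : List Z) : ∀ {δ : List Z}, Din wl δ → di wl l (dn wl l δ) = δ := by
  induction l with
  | nil => intro δ h; rfl
  | cons z l ih =>
    intro δ h
    show di wl l (ds wl z (ds wl z (dn wl l δ))) = δ
    rw [ds_ds z (dn_din l h), ih h]

theorem di_self : ∀ {δ : List Z}, Din wl δ → di wl δ δ = [] := by
  intro δ
  induction δ with
  | nil => intro _; rfl
  | cons z δ ih =>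
    intro h
    show di wl δ (ds wl z (z :: δ)) = []
    rw [ds_head, ih h.1]

section lab

variable {Q : Type u} [BolLoop Q]

/-- the move of a labelled system -/
noncomputable def step (wl : List Z → Z → Prop) (lam : List Z → Q) (z : Z) (st : Q × List Z) :
    Q × List Z := (st.1 * lam (yy z st.2), ds wl z st.2)

/-- forward run -/
noncomputable def fwd (wl : List Z → Z → Prop) (lam : List Z → Q) :
    List Z → Q × List Z → Q × List Z
  | [], st => st
  | z :: l, st => step wl lam z (fwd wl lam l st)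

/-- backward run -/
noncomputable def bwd (wl : List Z → Z → Prop) (lam : List Z → Q) :
    List Z → Q × List Z → Q × List Z
  | [], st => st
  | z :: l, st => bwd wl lam l (step wl lam z st)

variable {lam : List Z → Q}

theorem step_step (z : Z) {st : Q × List Z} (h : Din wl st.2) :
    step wl lam z (step wl lam z st) = st := by
  obtain ⟨q, δ⟩ := st
  simp only [step]
  rw [yy_ds z h, rr, ds_ds z h]

theorem step_din (z : Z) {st : Q × List Z} (h : Din wl st.2) : Din wl (step wl lam z st).2 :=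
  ds_din z h

theorem fwd_snd (l : List Z) (st : Q × List Z) : (fwd wl lam l st).2 = dn wl l st.2 := by
  induction l with
  | nil => rfl
  | cons z l ih => show ds wl z (fwd wl lam l st).2 = _; rw [ih]; rfl

theorem bwd_snd (l : List Z) : ∀ (st : Q × List Z), (bwd wl lam l st).2 = di wl l st.2 := by
  induction l with
  | nil => intro st; rfl
  | cons z l ih => intro st; show (bwd wl lam l (step wl lam z st)).2 = _; rw [ih]; rfl

theorem bwd_fwd (l : List Z) : ∀ {st : Q × List Z}, Din wl st.2 →
    bwd wl lam l (fwd wl lam l st) = st := by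
  induction l with
  | nil => intro st h; rfl
  | cons z l ih =>
    intro st h
    show bwd wl lam l (step wl lam z (step wl lam z (fwd wl lam l st))) = st
    rw [step_step z (by rw [fwd_snd]; exact dn_din l h), ih h]

theorem fwd_bwd (l : List Z) : ∀ {st : Q × List Z}, Din wl st.2 →
    fwd wl lam l (bwd wl lam l st) = st := by
  induction l with
  | nil => intro st h; rfl
  | cons z l ih =>
    intro st h
    show step wl lam z (fwd wl lam l (bwd wl lam l (step wl lam z st))) = st
    rw [ih (step_din z h), step_step z h]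

/-- conjugation along a path -/
theorem conj_ex (T : Subloop Q) (hT : ∀ y, lam y ∈ T.carrier) (l : List Z) {δ : List Z}
    (h : Din wl δ) : ∀ a : Q, ∃ c : Q, (a ∈ T.carrier ↔ c ∈ T.carrier) ∧
      ∀ q, bwd wl lam l ((fwd wl lam l (q, δ)).1 * a, (fwd wl lam l (q, δ)).2) = (q * c, δ) := by
  induction l with
  | nil => intro a; exact ⟨a, Iff.rfl, fun q => rfl⟩
  | cons z l ih =>
    intro a
    set m : Q := lam (yy z (dn wl l δ)) with hm
    obtain ⟨c, hc, hc2⟩ := ih ((m * a) * m)
    refine ⟨c, (cj_mem T (hT _)).symm.trans hc, fun q => ?_⟩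
    rw [← hc2 q]
    set st := fwd wl lam l (q, δ) with hst
    have hd : st.2 = dn wl l δ := fwd_snd l _
    show bwd wl lam l (step wl lam z ((step wl lam z st).1 * a, (step wl lam z st).2)) = _
    congr 1
    have hdin : Din wl st.2 := by rw [hd]; exact dn_din l h
    show (((st.1 * lam (yy z st.2)) * a) * lam (yy z (ds wl z st.2)), ds wl z (ds wl z st.2)) = _
    rw [yy_ds z hdin, ds_ds z hdin, bol, hd]

/-- the whole loop -/
def topS (Q : Type u) [BolLoop Q] : Subloop Q where
  carrier := Set.univ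
  one_mem := trivial
  mul_mem := fun _ _ _ _ => trivial
  ldiv_mem := fun _ _ _ _ _ _ => trivial
  rdiv_mem := fun _ _ _ _ _ _ => trivial

/-- the run depends only on the labels of the letters which are read -/
theorem fwd_congr {lam' : List Z → Q} (l : List Z) {st : Q × List Z} (h : Din wl st.2)
    (hl : ∀ y, VL wl y → (∃ z ∈ l, y.head? = some z) → lam y = lam' y) :
    fwd wl lam l st = fwd wl lam' l st := by
  induction l with
  | nil => rfl
  | cons z l ih =>
    have ih' := ih (fun y hy ⟨z', hz', e⟩ => hl y hy ⟨z', List.mem_cons_of_mem _ hz', e⟩)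
    show step wl lam z (fwd wl lam l st) = step wl lam' z (fwd wl lam' l st)
    rw [ih']
    simp only [step]
    have h1 : Din wl (fwd wl lam' l st).2 := by rw [fwd_snd]; exact dn_din l h
    rw [hl _ (vl_yy z h1).1 ⟨z, List.mem_cons_self, (vl_yy z h1).2⟩]

variable {Q' : Type w} [BolLoop Q']

/-- homomorphisms and runs -/
theorem map_fwd (T : Subloop Q) (hT : ∀ y, lam y ∈ T.carrier) (F : Q → Q')
    (hF : ∀ x ∈ T.carrier, ∀ y ∈ T.carrier, F (x * y) = F x * F y) (l : List Z) (q : Q)
    (δ : List Z) (hq : q ∈ T.carrier) :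
    (fwd wl lam l (q, δ)).1 ∈ T.carrier ∧
    (F (fwd wl lam l (q, δ)).1, (fwd wl lam l (q, δ)).2) =
      fwd wl (fun y => F (lam y)) l (F q, δ) := by
  induction l with
  | nil => exact ⟨hq, rfl⟩
  | cons z l ih =>
    obtain ⟨h1, h2⟩ := ih
    refine ⟨T.mul_mem _ h1 _ (hT _), ?_⟩
    show _ = step wl (fun y => F (lam y)) z (fwd wl (fun y => F (lam y)) l (F q, δ))
    rw [← h2]
    show (F ((fwd wl lam l (q, δ)).1 * lam (yy z (fwd wl lam l (q, δ)).2)), _) = _
    rw [hF _ h1 _ (hT _)]
    rfl

end lab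

end sys

end Pool.Agent.K7.H87.BL
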