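import Mathlib
import Pool.Agent.K7.H87.BL.Loop

/-!
# Frames of Bol loops of exponent two and subloops
-/

set_option autoImplicit false

namespace Pool.Agent.K7.H87.BL

universe u v w

section runs

variable {B : Type u} [BolLoop B] {Z : Type v} (ζ : Z → B)

/-- forward run -/
def rn : List Z → B → B
  | [], p => p
  | z :: l, p => rn l p * ζ z

/-- backward run -/
def ri : List Z → B → B
  | [], p => p
  | z :: l, p => ri l (p * ζ z)

/-- conjugation by a run -/
def cj : List Z → B → B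
  | [], a => a
  | z :: l, a => cj l ((ζ z * a) * ζ z)

variable {ζ}

theorem ri_rn (l : List Z) (p : B) : ri ζ l (rn ζ l p) = p := by
  induction l with
  | nil => rfl
  | cons z l ih => show ri ζ l ((rn ζ l p * ζ z) * ζ z) = p; rw [rr, ih]

theorem rn_ri (l : List Z) : ∀ p : B, rn ζ l (ri ζ l p) = p := by
  induction l with
  | nil => intro p; rfl
  | cons z l ih => intro p; show rn ζ l (ri ζ l (p * ζ z)) * ζ z = p; rw [ih, rr]

theorem ri_mul (l : List Z) : ∀ (p a : B), ri ζ l (rn ζ l p * a) = p * cj ζ l a := by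
  induction l with
  | nil => intro p a; rfl
  | cons z l ih =>
    intro p a
    show ri ζ l (((rn ζ l p * ζ z) * a) * ζ z) = _
    rw [bol, ih]
    rfl

theorem rn_cj (l : List Z) (p a : B) : rn ζ l (p * cj ζ l a) = rn ζ l p * a := by
  rw [← ri_mul, rn_ri]

theorem ri_one {l : List Z} {s : B} (h : rn ζ l s = 1) : s = ri ζ l 1 := by
  rw [← h, ri_rn]

end runs

/-- A frame of a Bol loop: letters, levels, cores and words. -/
structure Frame (B : Type u) [BolLoop B] (Z : Type v) where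
  ζ : Z → B
  lev : Z → ℕ
  core : Z → Option (List Z)
  word : B → List Z
  word_one : word 1 = []
  rn_word : ∀ p, rn ζ (word p) 1 = p
  mv : ∀ p z, word (p * ζ z) = z :: word p ∨ word p = z :: word (p * ζ z) ∨
    ∃ w, core z = some w ∧ (p = 1 ∨ p = ζ z)
  core_word : ∀ z w, core z = some w → word (ζ z) = w
  core_lev : ∀ z w, core z = some w → ∀ y ∈ w, lev y < lev z
  core_pos : ∀ z w, core z = some w → 0 < lev z
  refl : ∀ t : B, t ≠ 1 → ∃ (l : List Z) (z : Z), ∀ p, p * t = ri ζ l (rn ζ l p * ζ z)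

namespace Frame

variable {B : Type u} [BolLoop B] {Z : Type v} (A : Frame B Z) (S : Subloop B)

/-- the walls -/
def wl : List Z → Z → Prop := fun δ z => cj A.ζ δ (A.ζ z) ∈ S.carrier

open Classical in
/-- the labels of the reflection group -/
noncomputable def lam0 : List Z → B
  | [] => 1
  | z :: δ => if A.wl S δ z then cj A.ζ δ (A.ζ z) else 1

theorem lam0_mem (y : List Z) : A.lam0 S y ∈ S.carrier := by
  cases y with
  | nil => exact S.one_mem
  | cons z δ =>
    by_cases h : A.wl S δ z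
    · have e : A.lam0 S (z :: δ) = cj A.ζ δ (A.ζ z) := by simp [lam0, h]
      rw [e]; exact h
    · have e : A.lam0 S (z :: δ) = 1 := by simp [lam0, h]
      rw [e]; exact S.one_mem

/-- the point of a state -/
def ov (st : B × List Z) : B := rn A.ζ st.2 st.1

variable {A S}

theorem ov_step (z : Z) {st : B × List Z} (h : Din (A.wl S) st.2) :
    A.ov (step (A.wl S) (A.lam0 S) z st) = A.ov st * A.ζ z := by
  obtain ⟨s, δ⟩ := st
  rcases ds_cases z h with ⟨δ', e, h1, h2, h3, h4, h5⟩ | ⟨h1, h2, h3, h4⟩ | ⟨h1, h2, h3, h4⟩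
  · simp only [step, ov] at *
    rw [h4, h5, e]
    simp only [lam0, h3, if_false]
    rw [mul_one']
    show _ = (rn A.ζ δ' s * A.ζ z) * A.ζ z
    rw [rr]
  · simp only [step, ov] at *
    rw [h3, h4]
    simp only [lam0, h2, if_true]
    rw [rn_cj]
  · simp only [step, ov] at *
    rw [h3, h4]
    simp only [lam0, h2, if_false]
    rw [mul_one']
    rfl

theorem ov_fwd (l : List Z) {st : B × List Z} (h : Din (A.wl S) st.2) :
    A.ov (fwd (A.wl S) (A.lam0 S) l st) = rn A.ζ l (A.ov st) := by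
  induction l with
  | nil => rfl
  | cons z l ih =>
    show A.ov (step _ _ z (fwd _ _ l st)) = _
    rw [ov_step z (by rw [fwd_snd]; exact dn_din l h), ih]
    rfl

theorem ov_bwd (l : List Z) : ∀ {st : B × List Z}, Din (A.wl S) st.2 →
    A.ov (bwd (A.wl S) (A.lam0 S) l st) = ri A.ζ l (A.ov st) := by
  induction l with
  | nil => intro st h; rfl
  | cons z l ih =>
    intro st h
    show A.ov (bwd _ _ l (step _ _ z st)) = _
    rw [ih (step_din z h), ov_step z h]
    rfl

theorem step_mem (z : Z) {st : B × List Z} (h : st.1 ∈ S.carrier) :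
    (step (A.wl S) (A.lam0 S) z st).1 ∈ S.carrier :=
  S.mul_mem _ h _ (A.lam0_mem S _)

theorem fwd_mem (l : List Z) {st : B × List Z} (h : st.1 ∈ S.carrier) :
    (fwd (A.wl S) (A.lam0 S) l st).1 ∈ S.carrier := by
  induction l with
  | nil => exact h
  | cons z l ih => exact step_mem z ih

theorem bwd_mem (l : List Z) : ∀ {st : B × List Z}, st.1 ∈ S.carrier →
    (bwd (A.wl S) (A.lam0 S) l st).1 ∈ S.carrier := by
  induction l with
  | nil => intro st h; exact h
  | cons z l ih => intro st h; exact ih (step_mem z h)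

variable (A S)

/-- the point of `S` in the frame `δ` over `1` -/
def uu (δ : List Z) : B := ri A.ζ δ 1

/-- the set `D_1` -/
def D1 (δ : List Z) : Prop := A.uu δ ∈ S.carrier

variable {A S}

theorem rn_uu (δ : List Z) : rn A.ζ δ (A.uu δ) = 1 := rn_ri δ 1

theorem d1_of_ov {st : B × List Z} (hs : st.1 ∈ S.carrier) (h : A.ov st = 1) :
    A.D1 S st.2 ∧ st.1 = A.uu st.2 := by
  have e : st.1 = A.uu st.2 := ri_one h
  refine ⟨?_, e⟩
  show A.uu st.2 ∈ S.carrier
  rw [← e]
  exact hs

theorem d1_nil : A.D1 S [] := S.one_mem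

/-- not both ends of an inner edge are in `D_1` -/
theorem notboth {z : Z} {δ : List Z} (h : Din (A.wl S) (z :: δ)) (h1 : A.D1 S δ)
    (h2 : A.D1 S (z :: δ)) : False := by
  apply h.2.2
  show cj A.ζ δ (A.ζ z) ∈ S.carrier
  apply S.ldiv_mem _ h1 _ h2
  show ri A.ζ δ 1 * _ = ri A.ζ (z :: δ) 1
  rw [← ri_mul, rn_ri]
  rfl

/-! ### reaching `D_1` -/

variable (A S)

/-- `D_1` can be reached by `k` letters of level at most `n` -/
def RR (n k : ℕ) (δ : List Z) : Prop :=
  ∃ l : List Z, l.length = k ∧ (∀ z ∈ l, A.lev z ≤ n) ∧ A.D1 S (di (A.wl S) l δ)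

/-- the level needed to reach `D_1` -/
noncomputable def NN (δ : List Z) : ℕ := sInf {n | ∃ k, A.RR S n k δ}

/-- the distance to `D_1` -/
noncomputable def dd (δ : List Z) : ℕ := sInf {k | A.RR S (A.NN S δ) k δ}

/-- possible next letters on the way to `D_1` -/
def Bc (δ : List Z) (z : Z) : Prop :=
  ¬ A.D1 S δ ∧ Din (A.wl S) δ ∧ A.lev z ≤ A.NN S δ ∧
    (A.NN S (ds (A.wl S) z δ) < A.NN S δ ∨
      (A.NN S (ds (A.wl S) z δ) = A.NN S δ ∧ A.dd S (ds (A.wl S) z δ) < A.dd S δ))

open Classical in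
/-- the next letter on the way to `D_1` -/
noncomputable def nx (δ : List Z) : Option Z :=
  if h : ∃ z, A.Bc S δ z then some h.choose else none

variable {A S}

theorem nx_some {δ : List Z} {z : Z} (h : A.nx S δ = some z) : A.Bc S δ z := by
  unfold nx at h
  split_ifs at h with h1
  obtain rfl := Option.some.inj h
  exact h1.choose_spec

theorem RR_ex {δ : List Z} (h : Din (A.wl S) δ) : ∃ n k, A.RR S n k δ := by
  refine ⟨(δ.map A.lev).sum, δ.length, δ, rfl, fun z hz => ?_, ?_⟩
  · exact List.single_le_sum (fun _ _ => Nat.zero_le _) _ (List.mem_map_of_mem hz)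
  · rw [di_self h]; exact d1_nil

theorem NN_spec {δ : List Z} (h : Din (A.wl S) δ) : ∃ k, A.RR S (A.NN S δ) k δ :=
  Nat.sInf_mem (s := {n | ∃ k, A.RR S n k δ}) (RR_ex h)

theorem NN_le {δ : List Z} {n k : ℕ} (h : A.RR S n k δ) : A.NN S δ ≤ n :=
  Nat.sInf_le (s := {n | ∃ k, A.RR S n k δ}) ⟨k, h⟩

theorem dd_spec {δ : List Z} (h : Din (A.wl S) δ) : A.RR S (A.NN S δ) (A.dd S δ) δ :=
  Nat.sInf_mem (s := {k | A.RR S (A.NN S δ) k δ}) (NN_spec h)

theorem dd_le {δ : List Z} {k : ℕ} (h : A.RR S (A.NN S δ) k δ) : A.dd S δ ≤ k :=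
  Nat.sInf_le (s := {k | A.RR S (A.NN S δ) k δ}) h

theorem nx_none {δ : List Z} (h : Din (A.wl S) δ) (h1 : A.nx S δ = none) : A.D1 S δ := by
  by_contra hD
  unfold nx at h1
  split_ifs at h1 with h2
  apply h2
  obtain ⟨l, hl, hle, hlD⟩ := dd_spec h
  cases l with
  | nil => exact absurd hlD hD
  | cons z l =>
    have hR : A.RR S (A.NN S δ) l.length (ds (A.wl S) z δ) :=
      ⟨l, rfl, fun y hy => hle y (List.mem_cons_of_mem _ hy), hlD⟩
    refine ⟨z, hD, h, hle z List.mem_cons_self, ?_⟩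
    rcases (NN_le hR).lt_or_eq with h3 | h3
    · exact Or.inl h3
    · right
      refine ⟨h3, ?_⟩
      rw [← h3] at hR
      have := dd_le hR
      simp only [List.length_cons] at hl
      omega

theorem nx_d1 {δ : List Z} (h : A.D1 S δ) : A.nx S δ = none := by
  cases h1 : A.nx S δ with
  | none => rfl
  | some z => exact absurd h (nx_some h1).1

variable (A S)

/-- the root in `D_1` -/
noncomputable def root (δ : List Z) : List Z :=
  match h : A.nx S δ with
  | none => δ
  | some z => root (ds (A.wl S) z δ)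
termination_by (A.NN S δ, A.dd S δ)
decreasing_by
  have h1 := (nx_some h).2.2.2
  rcases h1 with h1 | ⟨h1, h2⟩
  · exact Prod.Lex.left _ _ h1
  · rw [h1]; exact Prod.Lex.right _ h2

variable {A S}

theorem root_none {δ : List Z} (h : A.nx S δ = none) : A.root S δ = δ := by
  rw [root]
  split
  · rfl
  · rename_i z h1; rw [h] at h1; exact absurd h1 (by simp)

theorem root_some {δ : List Z} {z : Z} (h : A.nx S δ = some z) :
    A.root S δ = A.root S (ds (A.wl S) z δ) := by
  conv_lhs => rw [root]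
  split
  · rename_i h1; rw [h] at h1; exact absurd h1 (by simp)
  · rename_i z' h1; rw [h] at h1; obtain rfl := Option.some.inj h1; rfl

/-- induction along the way to the root -/
theorem root_ind (P : List Z → Prop) (h0 : ∀ δ, Din (A.wl S) δ → A.D1 S δ → P δ)
    (h1 : ∀ δ z, Din (A.wl S) δ → A.nx S δ = some z → P (ds (A.wl S) z δ) → P δ) :
    ∀ δ, Din (A.wl S) δ → P δ := by
  have key : ∀ n k : ℕ, ∀ δ, Din (A.wl S) δ → A.NN S δ = n → A.dd S δ = k → P δ := by
    intro n
    induction n using Nat.strong_induction_on with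
    | _ n ihn =>
      intro k
      induction k using Nat.strong_induction_on with
      | _ k ihk =>
        intro δ hδ hn hk
        cases hx : A.nx S δ with
        | none => exact h0 δ hδ (nx_none hδ hx)
        | some z =>
          apply h1 δ z hδ hx
          rcases (nx_some hx).2.2.2 with h2 | ⟨h2, h3⟩
          · exact ihn _ (hn ▸ h2) _ _ (ds_din z hδ) rfl rfl
          · exact ihk _ (hk ▸ h3) _ (ds_din z hδ) (h2.trans hn) rfl
  intro δ hδ
  exact key _ _ δ hδ rfl rfl

variable (A S)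

/-- the edges with the trivial label -/
def isB : List Z → Prop
  | [] => False
  | z :: δ => Din (A.wl S) (z :: δ) ∧ (A.nx S (z :: δ) = some z ∨ A.nx S δ = some z)

variable {A S}

theorem nx_ne {δ : List Z} {z : Z} (h : A.nx S δ = some z) : ds (A.wl S) z δ ≠ δ := by
  intro e
  rcases (nx_some h).2.2.2 with h1 | ⟨h1, h2⟩
  · rw [e] at h1; exact lt_irrefl _ h1
  · rw [e] at h2; exact lt_irrefl _ h2

theorem isB_of_nx {δ : List Z} (hδ : Din (A.wl S) δ) {z : Z} (h : A.nx S δ = some z) :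
    A.isB S (yy z δ) := by
  rcases ds_cases z hδ with ⟨δ', e, h1, h2, h3, h4, h5⟩ | ⟨h1, h2, h3, h4⟩ | ⟨h1, h2, h3, h4⟩
  · rw [h5]
    subst e
    exact ⟨hδ, Or.inl h⟩
  · exact absurd h3 (nx_ne h)
  · rw [h4]
    exact ⟨⟨hδ, h1, h2⟩, Or.inr h⟩

theorem isB_cases {δ : List Z} (hδ : Din (A.wl S) δ) {z : Z} (h : A.isB S (yy z δ)) :
    A.nx S δ = some z ∨ A.nx S (ds (A.wl S) z δ) = some z := by
  rcases ds_cases z hδ with ⟨δ', e, h1, h2, h3, h4, h5⟩ | ⟨h1, h2, h3, h4⟩ | ⟨h1, h2, h3, h4⟩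
  · rw [h5] at h
    rw [h4, e]
    exact h.2
  · rw [h4] at h
    exact absurd h2 h.1.2.2
  · rw [h4] at h
    rw [h3]
    exact h.2.symm

/-- the data of a core edge over `1` -/
theorem core_data {δ : List Z} (hδ : Din (A.wl S) δ) (hD : A.D1 S δ) {z : Z} {w : List Z}
    (hw : A.core z = some w) :
    A.D1 S (di (A.wl S) w (ds (A.wl S) z δ)) ∧
    step (A.wl S) (A.lam0 S) z (A.uu δ, δ) = fwd (A.wl S) (A.lam0 S) w
      (A.uu (di (A.wl S) w (ds (A.wl S) z δ)), di (A.wl S) w (ds (A.wl S) z δ)) := by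
  set v := step (A.wl S) (A.lam0 S) z (A.uu δ, δ) with hv
  have hvd : Din (A.wl S) v.2 := step_din z hδ
  have h1 : A.ov v = A.ζ z := by
    rw [hv, ov_step z hδ]
    show rn A.ζ δ (A.uu δ) * _ = _
    rw [rn_uu, one_mul']
  have h2 : A.ov (bwd (A.wl S) (A.lam0 S) w v) = 1 := by
    rw [ov_bwd w hvd, h1, ← A.core_word z w hw]
    conv_lhs => rw [← A.rn_word (A.ζ z)]
    rw [A.rn_word (A.ζ z)]
    have := ri_rn (ζ := A.ζ) (A.word (A.ζ z)) 1
    rwa [A.rn_word] at this
  have h3 := d1_of_ov (bwd_mem w (step_mem (st := (A.uu δ, δ)) z hD)) h2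
  rw [← hv, bwd_snd] at h3
  refine ⟨h3.1, ?_⟩
  have h4 : bwd (A.wl S) (A.lam0 S) w v =
      (A.uu (di (A.wl S) w (ds (A.wl S) z δ)), di (A.wl S) w (ds (A.wl S) z δ)) :=
    Prod.ext h3.2 (bwd_snd w v)
  rw [← h4, fwd_bwd w hvd]

/-- the labels with an equation are not trivial -/
theorem noB {δ : List Z} (hδ : Din (A.wl S) δ) (hD : A.D1 S δ) {z : Z} {w : List Z}
    (hw : A.core z = some w) : ¬ A.isB S (yy z δ) := by
  intro h
  rcases isB_cases hδ h with h1 | h1
  · rw [nx_d1 hD] at h1; exact absurd h1 (by simp)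
  · have h2 := (nx_some h1).2.2.1
    have h3 : A.RR S (A.lev z - 1) w.length (ds (A.wl S) z δ) :=
      ⟨w, rfl, fun y hy => by have := A.core_lev z w hw y hy; omega, (core_data hδ hD hw).1⟩
    have h4 := NN_le h3
    have h5 := A.core_pos z w hw
    omega

end Frame

end Pool.Agent.K7.H87.BL
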