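import Mathlib
import Pool.Agent.K7.H87.BL.Frm

/-!
# Labellings and homomorphisms of subloops
-/

set_option autoImplicit false

namespace Pool.Agent.K7.H87.BL

universe u v w

namespace Frame

variable {B : Type u} [BolLoop B] {Z : Type v} (A : Frame B Z) (S : Subloop B)
variable {Q : Type w} [BolLoop Q]

/-- the labellings which satisfy the equations of the core edges -/
structure LabOK (lam : List Z → Q) : Prop where
  b : ∀ y, A.isB S y → lam y = 1
  e : ∀ δ, Din (A.wl S) δ → A.D1 S δ → ∀ z w, A.core z = some w →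
    lam (yy z δ) = (fwd (A.wl S) lam w (1, di (A.wl S) w (ds (A.wl S) z δ))).1

/-- the map defined by a labelling -/
noncomputable def Psi (lam : List Z → Q) (st : B × List Z) : Q × List Z :=
  fwd (A.wl S) lam (A.word (A.ov st)) (1, di (A.wl S) (A.word (A.ov st)) st.2)

variable {A S} {lam : List Z → Q}

theorem psi_snd {st : B × List Z} (h : Din (A.wl S) st.2) : (A.Psi S lam st).2 = st.2 := by
  rw [Psi, fwd_snd]
  exact dn_di _ h

theorem psi_one {st : B × List Z} (h : A.ov st = 1) : A.Psi S lam st = (1, st.2) := by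
  rw [Psi, h, A.word_one]
  rfl

theorem psi_step (hl : A.LabOK S lam) (z : Z) {st : B × List Z} (h : Din (A.wl S) st.2)
    (hs : st.1 ∈ S.carrier) :
    A.Psi S lam (step (A.wl S) (A.lam0 S) z st) = step (A.wl S) lam z (A.Psi S lam st) := by
  set st' := step (A.wl S) (A.lam0 S) z st with hst'
  have hov : A.ov st' = A.ov st * A.ζ z := ov_step z h
  have h' : Din (A.wl S) st'.2 := step_din z h
  have hs' : st'.1 ∈ S.carrier := step_mem z hs
  have hds : st'.2 = ds (A.wl S) z st.2 := rfl
  rcases A.mv (A.ov st) z with h1 | h1 | ⟨w, hw, h1 | h1⟩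
  · -- append
    have e : A.word (A.ov st') = z :: A.word (A.ov st) := by rw [hov, h1]
    rw [Psi, e]
    show step (A.wl S) lam z (fwd (A.wl S) lam (A.word (A.ov st))
      (1, di (A.wl S) (A.word (A.ov st)) (ds (A.wl S) z st'.2))) = _
    rw [hds, ds_ds z h]
    rfl
  · -- remove
    have e : A.word (A.ov st) = z :: A.word (A.ov st') := by rw [hov, ← h1]
    conv_rhs => rw [Psi, e]
    show _ = step (A.wl S) lam z (step (A.wl S) lam z (fwd (A.wl S) lam (A.word (A.ov st'))
      (1, di (A.wl S) (A.word (A.ov st')) (ds (A.wl S) z st.2))))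
    rw [← hds, step_step]
    · rfl
    · rw [fwd_snd]
      exact dn_din _ (di_din _ h')
  · -- core, from `1`
    have hd : A.D1 S st.2 := (d1_of_ov hs h1).1
    rw [psi_one h1]
    have e : A.word (A.ov st') = w := by rw [hov, h1, one_mul', A.core_word z w hw]
    rw [Psi, e]
    apply Prod.ext
    · show _ = 1 * lam (yy z st.2)
      rw [one_mul', hl.e _ h hd z w hw, hds]
    · rw [fwd_snd]
      show dn (A.wl S) w (di (A.wl S) w st'.2) = ds (A.wl S) z st.2
      rw [dn_di _ h', hds]
  · -- core, to `1`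
    have h2 : A.ov st' = 1 := by rw [hov, h1, sq]
    have hd : A.D1 S st'.2 := (d1_of_ov hs' h2).1
    rw [psi_one h2]
    have e : A.word (A.ov st) = w := by rw [h1, A.core_word z w hw]
    have hback : ds (A.wl S) z st'.2 = st.2 := by rw [hds, ds_ds z h]
    have h3 : A.Psi S lam st = step (A.wl S) lam z (1, st'.2) := by
      rw [Psi, e]
      apply Prod.ext
      · show _ = 1 * lam (yy z st'.2)
        rw [one_mul', hl.e _ h' hd z w hw, hback]
      · rw [fwd_snd]
        show dn (A.wl S) w (di (A.wl S) w st.2) = ds (A.wl S) z st'.2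
        rw [dn_di _ h, hback]
    rw [h3, step_step (st := ((1 : Q), st'.2)) z h']

theorem psi_fwd (hl : A.LabOK S lam) (l : List Z) {st : B × List Z} (h : Din (A.wl S) st.2)
    (hs : st.1 ∈ S.carrier) :
    A.Psi S lam (fwd (A.wl S) (A.lam0 S) l st) = fwd (A.wl S) lam l (A.Psi S lam st) := by
  induction l with
  | nil => rfl
  | cons z l ih =>
    show A.Psi S lam (step _ _ z (fwd _ _ l st)) = step _ _ z (fwd _ _ l _)
    rw [psi_step hl z (by rw [fwd_snd]; exact dn_din l h) (fwd_mem l hs), ih]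

theorem psi_bwd (hl : A.LabOK S lam) (l : List Z) : ∀ {st : B × List Z}, Din (A.wl S) st.2 →
    st.1 ∈ S.carrier →
    A.Psi S lam (bwd (A.wl S) (A.lam0 S) l st) = bwd (A.wl S) lam l (A.Psi S lam st) := by
  induction l with
  | nil => intro st h hs; rfl
  | cons z l ih =>
    intro st h hs
    show A.Psi S lam (bwd _ _ l (step _ _ z st)) = bwd _ _ l (step _ _ z _)
    rw [ih (step_din z h) (step_mem z hs), psi_step hl z h hs]

variable (A S lam)

/-- the component of the map at `δ` -/
noncomputable def FF (δ : List Z) (s : B) : Q := (A.Psi S lam (s, δ)).1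

variable {A S lam}

theorem psi_eq {δ : List Z} (h : Din (A.wl S) δ) (s : B) :
    A.Psi S lam (s, δ) = (A.FF S lam δ s, δ) := Prod.ext rfl (psi_snd (st := (s, δ)) h)

theorem FF_one : A.FF S lam [] 1 = 1 := by
  rw [FF, psi_one (st := ((1 : B), [])) rfl]

theorem FF_uu (δ : List Z) : A.FF S lam δ (A.uu δ) = 1 := by
  rw [FF, psi_one (st := (A.uu δ, δ)) (rn_uu δ)]

/-- **the map is a homomorphism** -/
theorem FF_mul (hl : A.LabOK S lam) {s t : B} (hs : s ∈ S.carrier) (ht : t ∈ S.carrier) :
    A.FF S lam [] (s * t) = A.FF S lam [] s * A.FF S lam [] t := by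
  by_cases ht1 : t = 1
  · rw [ht1, mul_one', FF_one, mul_one']
  obtain ⟨l, z, hz⟩ := A.refl t ht1
  have hnil : Din (A.wl S) [] := trivial
  set δ := dn (A.wl S) l [] with hδ
  have hδd : Din (A.wl S) δ := dn_din l hnil
  obtain ⟨c, hc, hc2⟩ := conj_ex S (A.lam0_mem S) l hnil (cj A.ζ δ (A.ζ z))
  have hpath : ∀ s, fwd (A.wl S) (A.lam0 S) l (s, []) =
      ((fwd (A.wl S) (A.lam0 S) l (s, [])).1, δ) := fun s => Prod.ext rfl (fwd_snd l _)
  -- the conjugate of the wall is `t`
  have hct : ∀ s, s * c = s * t := by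
    intro s
    have h1 := hc2 s
    have h2 := congrArg A.ov h1
    have h3 : (fwd (A.wl S) (A.lam0 S) l (s, [])).2 = δ := fwd_snd l _
    rw [ov_bwd l (by rw [h3]; exact hδd)] at h2
    have h4 : A.ov ((fwd (A.wl S) (A.lam0 S) l (s, [])).1 * cj A.ζ δ (A.ζ z),
        (fwd (A.wl S) (A.lam0 S) l (s, [])).2) = rn A.ζ l s * A.ζ z := by
      rw [h3]
      show rn A.ζ δ (_ * cj A.ζ δ (A.ζ z)) = _
      rw [rn_cj]
      have h5 := ov_fwd (A := A) (S := S) l (st := (s, [])) hnil
      rw [hpath s] at h5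
      show A.ov ((fwd (A.wl S) (A.lam0 S) l (s, [])).1, δ) * _ = _
      rw [h5]
      rfl
    rw [h4, ← hz] at h2
    exact h2.symm
  have hct' : c = t := by
    have := hct 1
    rwa [one_mul', one_mul'] at this
  have hw : A.wl S δ z := hc.2 (hct' ▸ ht)
  have hstay : ds (A.wl S) z δ = δ ∧ yy z δ = z :: δ := by
    rcases ds_cases z hδd with ⟨δ', e, h1, h2, h3, h4, h5⟩ | ⟨h1, h2, h3, h4⟩ | ⟨h1, h2, h3, h4⟩
    · exfalso
      apply h3
      have h6 : cj A.ζ δ (A.ζ z) ∈ S.carrier := hw
      rw [e] at h6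
      have h7 : cj A.ζ (z :: δ') (A.ζ z) = cj A.ζ δ' (A.ζ z) := by
        show cj A.ζ δ' ((A.ζ z * A.ζ z) * A.ζ z) = _
        rw [sq, one_mul']
      rw [h7] at h6
      exact h6
    · exact ⟨h3, h4⟩
    · exact absurd hw h2
  have hlam0 : A.lam0 S (z :: δ) = cj A.ζ δ (A.ζ z) := by
    have : A.wl S δ z := hw
    simp [lam0, this]
  -- the path in `S × D`
  have hS : ∀ s, (s * t, ([] : List Z)) =
      bwd (A.wl S) (A.lam0 S) l (step (A.wl S) (A.lam0 S) z (fwd (A.wl S) (A.lam0 S) l (s, []))) := by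
    intro s
    have h1 := hc2 s
    rw [hct'] at h1
    rw [← h1]
    congr 1
    rw [hpath s]
    show _ = (_ * A.lam0 S (yy z δ), ds (A.wl S) z δ)
    rw [hstay.1, hstay.2, hlam0]
  obtain ⟨c', -, hc'⟩ := conj_ex (lam := lam) (topS Q) (fun _ => trivial) l hnil (lam (z :: δ))
  have hQ : ∀ s ∈ S.carrier, A.FF S lam [] (s * t) = A.FF S lam [] s * c' := by
    intro s hs
    have h1 : A.Psi S lam (s * t, []) = (A.FF S lam [] s * c', []) := by
      rw [hS s, psi_bwd hl l (step_din z (by rw [fwd_snd]; exact hδd))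
          (step_mem z (fwd_mem l (st := (s, [])) hs)),
        psi_step hl z (by rw [fwd_snd]; exact hδd) (fwd_mem l (st := (s, [])) hs),
        psi_fwd hl l (st := (s, [])) hnil hs, psi_eq hnil, ← hc']
      congr 1
      have h2 : (fwd (A.wl S) lam l (A.FF S lam [] s, [])).2 = δ := fwd_snd l _
      apply Prod.ext
      · show _ * lam (yy z (fwd (A.wl S) lam l (A.FF S lam [] s, [])).2) = _
        rw [h2, hstay.2]
      · show ds (A.wl S) z (fwd (A.wl S) lam l (A.FF S lam [] s, [])).2 = _
        rw [h2, hstay.1]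
    exact congrArg Prod.fst h1
  have h1 := hQ 1 S.one_mem
  rw [one_mul', FF_one, one_mul'] at h1
  rw [hQ s hs, h1]

/-! ### existence of labellings -/

variable (A S)

open Classical in
/-- approximations of the labelling with given free labels -/
noncomputable def Lam (f : List Z → Q) : ℕ → List Z → Q
  | 0, _ => 1
  | _ + 1, [] => 1
  | n + 1, z :: δ =>
    if A.isB S (z :: δ) then 1 else
      match A.core z with
      | none => f (z :: δ)
      | some w =>
        if A.D1 S δ then (fwd (A.wl S) (Lam f n) w (1, di (A.wl S) w (ds (A.wl S) z δ))).1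
        else if Din (A.wl S) (z :: δ) ∧ A.D1 S (z :: δ) then
          (fwd (A.wl S) (Lam f n) w (1, di (A.wl S) w δ)).1
        else f (z :: δ)

/-- the level of a label -/
def lv : List Z → ℕ
  | [] => 0
  | z :: _ => A.lev z

/-- the labelling with given free labels -/
noncomputable def lamF (f : List Z → Q) (y : List Z) : Q := A.Lam S f (A.lv y + 1) y

/-- free labels -/
def Free (y : List Z) : Prop :=
  ∃ z δ, y = z :: δ ∧ Din (A.wl S) δ ∧ δ.head? ≠ some z ∧ ¬ A.isB S y ∧
    (A.core z = none ∨ (¬ A.D1 S δ ∧ ¬ (Din (A.wl S) (z :: δ) ∧ A.D1 S (z :: δ))))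

variable {A S}

theorem lv_head {y : List Z} {z : Z} (h : y.head? = some z) : A.lv y = A.lev z := by
  cases y with
  | nil => simp at h
  | cons z' δ => simp at h; rw [h]; rfl

theorem Lam_stab (f : List Z → Q) : ∀ (k n m : ℕ) (y : List Z), VL (A.wl S) y → A.lv y = k →
    k < n → k < m → A.Lam S f n y = A.Lam S f m y := by
  intro k
  induction k using Nat.strong_induction_on with
  | _ k ih =>
    intro n m y hy hk hn hm
    obtain ⟨z, δ, rfl, hδ, hh⟩ := hy
    have hk' : A.lev z = k := hk
    cases n with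
    | zero => omega
    | succ n =>
    cases m with
    | zero => omega
    | succ m =>
    simp only [Lam]
    cases hc : A.core z with
    | none => rfl
    | some w =>
      have key : ∀ st : Q × List Z, Din (A.wl S) st.2 →
          fwd (A.wl S) (A.Lam S f n) w st = fwd (A.wl S) (A.Lam S f m) w st := by
        intro st hst
        apply fwd_congr w hst
        rintro y hy ⟨z', hz', hy'⟩
        have h1 := A.core_lev z w hc z' hz'
        have h2 := lv_head (A := A) hy'
        exact ih (A.lv y) (by omega) n m y hy rfl (by omega) (by omega)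
      simp only
      rw [key _ (di_din _ (ds_din z hδ)), key _ (di_din _ hδ)]

theorem lamF_ok (f : List Z → Q) : A.LabOK S (A.lamF S f) ∧
    ∀ y, A.Free S y → A.lamF S f y = f y := by
  refine ⟨⟨fun y hy => ?_, fun δ hδ hD z w hw => ?_⟩, fun y hy => ?_⟩
  · cases y with
    | nil => exact hy.elim
    | cons z δ => simp [lamF, Lam, hy]
  · have hB := noB hδ hD hw
    have key : ∀ st : Q × List Z, Din (A.wl S) st.2 →
        fwd (A.wl S) (A.Lam S f (A.lev z)) w st = fwd (A.wl S) (A.lamF S f) w st := by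
      intro st hst
      apply fwd_congr w hst
      rintro y hy ⟨z', hz', hy'⟩
      have h1 := A.core_lev z w hw z' hz'
      have h2 := lv_head (A := A) hy'
      exact Lam_stab f (A.lv y) _ _ y hy rfl (by omega) (by omega)
    rcases ds_cases z hδ with ⟨δ', e, h1, h2, h3, h4, h5⟩ | ⟨h1, h2, h3, h4⟩ | ⟨h1, h2, h3, h4⟩
    · rw [h4]
      rw [h5] at hB ⊢
      subst e
      have hn : ¬ A.D1 S δ' := fun h => notboth hδ h hD
      show A.Lam S f (A.lev z + 1) (z :: δ') = _
      simp only [Lam, hB, if_false, hw, hn, hδ, hD, and_self, if_true]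
      rw [key _ (di_din _ h1)]
    · rw [h4] at hB ⊢
      show A.Lam S f (A.lev z + 1) (z :: δ) = _
      simp only [Lam, hB, if_false, hw, hD, if_true]
      rw [key _ (di_din _ (ds_din z hδ))]
    · rw [h4] at hB ⊢
      show A.Lam S f (A.lev z + 1) (z :: δ) = _
      simp only [Lam, hB, if_false, hw, hD, if_true]
      rw [key _ (di_din _ (ds_din z hδ))]
  · obtain ⟨z, δ, rfl, hδ, hh, hB, h⟩ := hy
    show A.Lam S f (A.lev z + 1) (z :: δ) = _
    cases hc : A.core z with
    | none => simp only [Lam, hB, if_false, hc]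
    | some w =>
      rw [hc] at h
      rcases h with h | ⟨h1, h2⟩
      · simp at h
      · simp only [Lam, hB, if_false, hc, h1, h2]

end Frame

end Pool.Agent.K7.H87.BL
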