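import Mathlib
import Pool.Agent.K7.H87.BL.Lab

/-!
# The basis of a subloop
-/

set_option autoImplicit false

namespace Pool.Agent.K7.H87.BL

universe u v w

namespace Frame

variable {B : Type u} [BolLoop B] {Z : Type v} (A : Frame B Z) (S : Subloop B)

open Classical in
/-- the gauge -/
noncomputable def gS : List Z → B → B
  | [], s => s
  | z :: δ, s => if A.isB S (z :: δ) then gS δ s
      else gS δ s * gS δ (A.uu (A.root S (z :: δ)))

open Classical in
/-- the gauge on reflections -/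
noncomputable def cS : List Z → B → B
  | [], a => a
  | z :: δ, a => if A.isB S (z :: δ) then cS δ a
      else (A.gS S δ (A.uu (A.root S (z :: δ))) * cS δ a) * A.gS S δ (A.uu (A.root S (z :: δ)))

open Classical in
/-- the labelling of `S` -/
noncomputable def lamS : List Z → B
  | [] => 1
  | z :: δ => if Din (A.wl S) (z :: δ) then
      (if A.isB S (z :: δ) then 1 else A.gS S δ (A.uu (A.root S (z :: δ))))
      else if A.wl S δ z then A.cS S δ (cj A.ζ δ (A.ζ z)) else 1

variable {A S}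

theorem gS_cS (δ : List Z) (s a : B) : A.gS S δ (s * a) = A.gS S δ s * A.cS S δ a := by
  induction δ with
  | nil => rfl
  | cons z δ ih =>
    by_cases h : A.isB S (z :: δ)
    · simp only [gS, cS, h, if_true]; exact ih
    · simp only [gS, cS, h, if_false]
      rw [ih, ← bol, rr]

/-- the root of a point of the chamber -/
theorem root_mem : ∀ δ, Din (A.wl S) δ → A.D1 S (A.root S δ) ∧ Din (A.wl S) (A.root S δ) := by
  apply root_ind
  · intro δ hδ hD
    rw [root_none (nx_d1 hD)]
    exact ⟨hD, hδ⟩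
  · intro δ z hδ hz ih
    rw [root_some hz]
    exact ih

theorem gS_mem (δ : List Z) (hδ : Din (A.wl S) δ) : ∀ s ∈ S.carrier, A.gS S δ s ∈ S.carrier := by
  induction δ with
  | nil => intro s hs; exact hs
  | cons z δ ih =>
    intro s hs
    by_cases h : A.isB S (z :: δ)
    · simp only [gS, h, if_true]; exact ih hδ.1 s hs
    · simp only [gS, h, if_false]
      exact S.mul_mem _ (ih hδ.1 s hs) _ (ih hδ.1 _ (root_mem _ hδ).1)

theorem cS_mem (δ : List Z) (hδ : Din (A.wl S) δ) : ∀ s ∈ S.carrier, A.cS S δ s ∈ S.carrier := by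
  induction δ with
  | nil => intro s hs; exact hs
  | cons z δ ih =>
    intro s hs
    by_cases h : A.isB S (z :: δ)
    · simp only [cS, h, if_true]; exact ih hδ.1 s hs
    · simp only [cS, h, if_false]
      have h1 := gS_mem δ hδ.1 _ (root_mem _ hδ).1
      exact S.mul_mem _ (S.mul_mem _ h1 _ (ih hδ.1 s hs)) _ h1

theorem din_of (δ : List Z) (z : Z) (h : A.wl S δ z) : ¬ Din (A.wl S) (z :: δ) :=
  fun h1 => h1.2.2 h

theorem lamS_mem' {z : Z} {δ : List Z} (hδ : Din (A.wl S) δ) :
    A.lamS S (z :: δ) ∈ S.carrier := by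
  by_cases h : Din (A.wl S) (z :: δ)
  · by_cases hB : A.isB S (z :: δ)
    · simp only [lamS, h, hB, if_true]; exact S.one_mem
    · simp only [lamS, h, hB, if_true, if_false]
      exact gS_mem δ hδ _ (root_mem _ h).1
  · by_cases hw : A.wl S δ z
    · simp only [lamS, h, hw, if_true, if_false]
      exact cS_mem δ hδ _ hw
    · simp only [lamS, h, hw, if_false]
      exact S.one_mem

variable (A S)

open Classical in
/-- the labelling, trivial outside the valid labels -/
noncomputable def lamV (y : List Z) : B := if VL (A.wl S) y then A.lamS S y else 1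

variable {A S}

theorem lamV_mem (y : List Z) : A.lamV S y ∈ S.carrier := by
  by_cases h : VL (A.wl S) y
  · simp only [lamV, h, if_true]
    obtain ⟨z, δ, rfl, h1, -⟩ := h
    exact lamS_mem' h1
  · simp only [lamV, h, if_false]
    exact S.one_mem

theorem lamV_eq {y : List Z} (h : VL (A.wl S) y) : A.lamV S y = A.lamS S y := by
  simp only [lamV, h, if_true]

theorem gS_cons {z : Z} {δ : List Z} (h : Din (A.wl S) (z :: δ)) (s : B) :
    A.gS S (z :: δ) s = A.gS S δ s * A.lamS S (z :: δ) := by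
  by_cases hB : A.isB S (z :: δ)
  · simp only [gS, lamS, h, hB, if_true, mul_one']
  · simp only [gS, lamS, h, hB, if_true, if_false]

/-- the gauge transformation -/
theorem theta_step (z : Z) {δ : List Z} (h : Din (A.wl S) δ) (s : B) :
    step (A.wl S) (A.lamV S) z (A.gS S δ s, δ) =
      (A.gS S (step (A.wl S) (A.lam0 S) z (s, δ)).2 (step (A.wl S) (A.lam0 S) z (s, δ)).1,
        (step (A.wl S) (A.lam0 S) z (s, δ)).2) := by
  apply Prod.ext
  swap
  · rfl
  show A.gS S δ s * A.lamV S (yy z δ) = A.gS S (ds (A.wl S) z δ) (s * A.lam0 S (yy z δ))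
  rw [lamV_eq (vl_yy z h).1]
  rcases ds_cases z h with ⟨δ', e, h1, h2, h3, h4, h5⟩ | ⟨h1, h2, h3, h4⟩ | ⟨h1, h2, h3, h4⟩
  · rw [h4, h5]
    have e0 : A.lam0 S (z :: δ') = 1 := by simp [lam0, h3]
    rw [e0, mul_one', e, gS_cons (e ▸ h), rr]
  · rw [h3, h4]
    have e0 : A.lam0 S (z :: δ) = cj A.ζ δ (A.ζ z) := by simp [lam0, h2]
    have e1 : A.lamS S (z :: δ) = A.cS S δ (cj A.ζ δ (A.ζ z)) := by
      simp [lamS, h2, din_of δ z h2]
    rw [e0, e1, gS_cS]
  · rw [h3, h4]
    have e0 : A.lam0 S (z :: δ) = 1 := by simp [lam0, h2]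
    rw [e0, mul_one', gS_cons ⟨h, h1, h2⟩]

theorem theta_fwd (l : List Z) {st : B × List Z} (h : Din (A.wl S) st.2) :
    fwd (A.wl S) (A.lamV S) l (A.gS S st.2 st.1, st.2) =
      (A.gS S (fwd (A.wl S) (A.lam0 S) l st).2 (fwd (A.wl S) (A.lam0 S) l st).1,
        (fwd (A.wl S) (A.lam0 S) l st).2) := by
  induction l with
  | nil => rfl
  | cons z l ih =>
    show step _ _ z (fwd _ _ l _) = _
    rw [ih, theta_step z (by rw [fwd_snd]; exact dn_din l h)]
    rfl

/-- the normalization of the gauge -/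
theorem gS_root (δ : List Z) (h : Din (A.wl S) δ) : A.gS S δ (A.uu (A.root S δ)) = 1 := by
  induction δ with
  | nil =>
    rw [root_none (nx_d1 d1_nil)]
    rfl
  | cons z δ ih =>
    by_cases hB : A.isB S (z :: δ)
    · have e : A.root S (z :: δ) = A.root S δ := by
        rcases hB.2 with h1 | h1
        · rw [root_some h1, ds_head]
        · rw [root_some h1]
          congr 1
          rcases ds_cases z h.1 with ⟨δ', e, h1, h2, h3, h4, h5⟩ | ⟨h1, h2, h3, h4⟩ |
            ⟨h1, h2, h3, h4⟩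
          · exact absurd (by rw [e]; rfl) h.2.1
          · exact absurd h2 h.2.2
          · exact h3.symm
      simp only [gS, hB, if_true]
      rw [e]
      exact ih h.1
    · simp only [gS, hB, if_false]
      exact sq _

theorem gS_uu (δ : List Z) (h : Din (A.wl S) δ) (hD : A.D1 S δ) : A.gS S δ (A.uu δ) = 1 := by
  have h1 := gS_root δ h
  rwa [root_none (nx_d1 hD)] at h1

theorem lamV_ok : A.LabOK S (A.lamV S) := by
  refine ⟨fun y hy => ?_, fun δ hδ hD z w hw => ?_⟩
  · by_cases h : VL (A.wl S) y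
    · rw [lamV_eq h]
      cases y with
      | nil => rfl
      | cons z δ => simp only [lamS, hy, hy.1, if_true]
    · simp only [lamV, h, if_false]
  · obtain ⟨h1, h2⟩ := core_data hδ hD hw
    set δ' := di (A.wl S) w (ds (A.wl S) z δ) with hδ'
    have hd' : Din (A.wl S) δ' := di_din w (ds_din z hδ)
    have h3 := theta_step (A := A) (S := S) z hδ (A.uu δ)
    have h4 := theta_fwd (A := A) (S := S) w (st := (A.uu δ', δ')) hd'
    rw [gS_uu δ hδ hD, h2] at h3
    rw [gS_uu δ' hd' h1] at h4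
    have h5 := congrArg Prod.fst (h3.trans h4.symm)
    rw [← h5]
    show _ = 1 * A.lamV S (yy z δ)
    rw [one_mul']

/-- reconstruction of the points of `S` -/
theorem recon {s : B} (hs : s ∈ S.carrier) :
    s = (fwd (A.wl S) (A.lamV S) (A.word s) (1, di (A.wl S) (A.word s) [])).1 := by
  have hnil : Din (A.wl S) [] := trivial
  set v0 := bwd (A.wl S) (A.lam0 S) (A.word s) (s, []) with hv0
  have h1 : A.ov v0 = 1 := by
    rw [hv0, ov_bwd _ hnil]
    show ri A.ζ (A.word s) s = 1
    have := ri_rn (ζ := A.ζ) (A.word s) 1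
    rwa [A.rn_word] at this
  have h2 := d1_of_ov (bwd_mem (A.word s) (st := (s, [])) hs) h1
  have h3 : v0.2 = di (A.wl S) (A.word s) [] := bwd_snd _ _
  have h4 : Din (A.wl S) v0.2 := by rw [h3]; exact di_din _ hnil
  have h5 := theta_fwd (A := A) (S := S) (A.word s) (st := v0) h4
  have h6 : fwd (A.wl S) (A.lam0 S) (A.word s) v0 = (s, []) := fwd_bwd _ hnil
  have h7 : A.gS S v0.2 v0.1 = 1 := by
    have h8 : v0.1 = A.uu v0.2 := h2.2
    rw [h8]
    exact gS_uu _ h4 h2.1
  rw [h6, h7, h3] at h5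
  rw [h5]
  rfl

variable {Q : Type w} [BolLoop Q]

/-- two homomorphisms which agree on the free labels agree -/
theorem hom_ext (F F' : B → Q)
    (hF : ∀ x ∈ S.carrier, ∀ y ∈ S.carrier, F (x * y) = F x * F y)
    (hF' : ∀ x ∈ S.carrier, ∀ y ∈ S.carrier, F' (x * y) = F' x * F' y)
    (h : ∀ y, A.Free S y → F (A.lamV S y) = F' (A.lamV S y)) : ∀ s ∈ S.carrier, F s = F' s := by
  have one : ∀ G : B → Q, (∀ x ∈ S.carrier, ∀ y ∈ S.carrier, G (x * y) = G x * G y) →
      G 1 = 1 := by
    intro G hG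
    have h1 := hG 1 S.one_mem 1 S.one_mem
    rw [mul_one'] at h1
    apply lcan (a := G 1)
    rw [← h1, mul_one']
  have hlab : ∀ (k : ℕ) (y : List Z), VL (A.wl S) y → A.lv y = k →
      F (A.lamV S y) = F' (A.lamV S y) := by
    intro k
    induction k using Nat.strong_induction_on with
    | _ k ih =>
      intro y hy hk
      by_cases hf : A.Free S y
      · exact h y hf
      obtain ⟨z, δ, rfl, hδ, hh⟩ := hy
      by_cases hB : A.isB S (z :: δ)
      · rw [lamV_ok.b _ hB, one F hF, one F' hF']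
      -- the label has an equation
      have key : ∀ (δ1 : List Z) (w : List Z), Din (A.wl S) δ1 → A.D1 S δ1 →
          yy z δ1 = z :: δ → A.core z = some w → F (A.lamV S (z :: δ)) = F' (A.lamV S (z :: δ)) := by
        intro δ1 w h1 h2 h3 hw
        have h4 := lamV_ok.e δ1 h1 h2 z w hw
        rw [h3] at h4
        have h5 := map_fwd (wl := A.wl S) (lam := A.lamV S) S lamV_mem F hF w 1
          (di (A.wl S) w (ds (A.wl S) z δ1)) S.one_mem
        have h5' := map_fwd (wl := A.wl S) (lam := A.lamV S) S lamV_mem F' hF' w 1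
          (di (A.wl S) w (ds (A.wl S) z δ1)) S.one_mem
        have h6 := congrArg Prod.fst h5.2
        have h6' := congrArg Prod.fst h5'.2
        simp only at h6 h6'
        rw [h4, h6, h6', one F hF, one F' hF']
        congr 1
        apply fwd_congr w (di_din w (ds_din z h1))
        rintro y hy ⟨z', hz', hy'⟩
        have h7 := A.core_lev z w hw z' hz'
        have h8 := lv_head (A := A) hy'
        have h9 : A.lev z = k := hk
        exact ih (A.lv y) (by omega) y hy rfl
      cases hc : A.core z with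
      | none => exact absurd ⟨z, δ, rfl, hδ, hh, hB, Or.inl hc⟩ hf
      | some w =>
        by_cases hD : A.D1 S δ
        · exact key δ w hδ hD (by simp [yy, hh]) hc
        · by_cases hD2 : Din (A.wl S) (z :: δ) ∧ A.D1 S (z :: δ)
          · exact key (z :: δ) w hD2.1 hD2.2 (yy_head z δ) hc
          · exact absurd ⟨z, δ, rfl, hδ, hh, hB, Or.inr ⟨hD, hD2⟩⟩ hf
  intro s hs
  have h5 := congrArg Prod.fst (map_fwd (wl := A.wl S) (lam := A.lamV S) S lamV_mem F hF (A.word s) 1
    (di (A.wl S) (A.word s) []) S.one_mem).2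
  have h5' := congrArg Prod.fst (map_fwd (wl := A.wl S) (lam := A.lamV S) S lamV_mem F' hF' (A.word s) 1
    (di (A.wl S) (A.word s) []) S.one_mem).2
  simp only at h5 h5'
  rw [recon (A := A) hs, h5, h5', one F hF, one F' hF']
  congr 1
  apply fwd_congr _ (show Din (A.wl S) (di (A.wl S) (A.word s) []) from
    di_din (wl := A.wl S) _ (δ := []) trivial)
  intro y hy _
  exact hlab _ y hy rfl

/-- the homomorphism of a labelling maps the labels of `S` to the labels -/
theorem FF_lam {lam : List Z → Q} (hl : A.LabOK S lam) :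
    ∀ y, VL (A.wl S) y → A.FF S lam [] (A.lamV S y) = lam y := by
  have hnil : Din (A.wl S) [] := trivial
  -- inner edges
  have inner : ∀ (z : Z) (δ : List Z), Din (A.wl S) δ → ds (A.wl S) z δ ≠ δ → ∀ s ∈ S.carrier,
      A.FF S lam (ds (A.wl S) z δ) s = A.FF S lam δ s * lam (yy z δ) := by
    intro z δ hδ hne s hs
    have h1 := congrArg Prod.fst (psi_step hl z (st := (s, δ)) hδ hs)
    have h2 : A.lam0 S (yy z δ) = 1 := by
      rcases ds_cases z hδ with ⟨δ', e, h1, h2, h3, h4, h5⟩ | ⟨h1, h2, h3, h4⟩ |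
        ⟨h1, h2, h3, h4⟩
      · rw [h5]; simp [lam0, h3]
      · exact absurd h3 hne
      · rw [h4]; simp [lam0, h2]
    have h3 : step (A.wl S) (A.lam0 S) z (s, δ) = (s, ds (A.wl S) z δ) := by
      show (s * A.lam0 S (yy z δ), _) = _
      rw [h2, mul_one']
    rw [h3, psi_eq hδ] at h1
    exact h1
  -- the root
  have root1 : ∀ δ, Din (A.wl S) δ →
      (∀ s ∈ S.carrier, A.FF S lam δ s = A.FF S lam (A.root S δ) s) := by
    apply root_ind
    · intro δ hδ hD s hs
      rw [root_none (nx_d1 hD)]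
    · intro δ z hδ hz ih s hs
      rw [root_some hz, ← ih s hs, inner z δ hδ (nx_ne hz) s hs, hl.b _ (isB_of_nx hδ hz),
        mul_one']
  have hom : ∀ x ∈ S.carrier, ∀ y ∈ S.carrier,
      A.FF S lam [] (x * y) = A.FF S lam [] x * A.FF S lam [] y :=
    fun x hx y hy => FF_mul hl hx hy
  have claim : ∀ δ, Din (A.wl S) δ → ∀ s ∈ S.carrier,
      A.FF S lam [] (A.gS S δ s) = A.FF S lam δ s := by
    intro δ
    induction δ with
    | nil => intro _ s _; rfl
    | cons z δ ih =>
      intro hδ s hs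
      have hi : ∀ s ∈ S.carrier, A.FF S lam (z :: δ) s = A.FF S lam δ s * lam (z :: δ) := by
        intro s hs
        rcases ds_cases z hδ.1 with ⟨δ', e, h1, h2, h3, h4, h5⟩ | ⟨h1, h2, h3, h4⟩ |
          ⟨h1, h2, h3, h4⟩
        · exact absurd (by rw [e]; rfl) hδ.2.1
        · exact absurd h2 hδ.2.2
        · have h6 := inner z δ hδ.1 (by rw [h3]; exact List.cons_ne_self _ _) s hs
          rw [h3, h4] at h6
          exact h6
      by_cases hB : A.isB S (z :: δ)
      · simp only [gS, hB, if_true]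
        rw [ih hδ.1 s hs, hi s hs, hl.b _ hB, mul_one']
      · simp only [gS, hB, if_false]
        have hu : A.uu (A.root S (z :: δ)) ∈ S.carrier := (root_mem _ hδ).1
        rw [hom _ (gS_mem δ hδ.1 s hs) _ (gS_mem δ hδ.1 _ hu), ih hδ.1 s hs, ih hδ.1 _ hu,
          hi s hs]
        congr 1
        symm
        apply eq_of_mul
        rw [← hi _ hu, root1 _ hδ _ hu, FF_uu]
  rintro y ⟨z, δ, rfl, hδ, hh⟩
  have hV : VL (A.wl S) (z :: δ) := ⟨z, δ, rfl, hδ, hh⟩
  rw [lamV_eq hV]
  by_cases hd : Din (A.wl S) (z :: δ)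
  · apply lcan (a := A.FF S lam [] (A.gS S δ 1))
    rw [← hom _ (gS_mem δ hδ 1 S.one_mem) _ (lamS_mem' hδ), ← gS_cons hd,
      claim _ hd 1 S.one_mem, claim _ hδ 1 S.one_mem]
    rcases ds_cases z hδ with ⟨δ', e, h1, h2, h3, h4, h5⟩ | ⟨h1, h2, h3, h4⟩ |
      ⟨h1, h2, h3, h4⟩
    · exact absurd (by rw [e]; rfl) hh
    · exact absurd h2 hd.2.2
    · have h6 := inner z δ hδ (by rw [h3]; exact List.cons_ne_self _ _) 1 S.one_mem
      rw [h3, h4] at h6
      exact h6
  · have hw : A.wl S δ z := by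
      by_contra hw
      exact hd ⟨hδ, hh, hw⟩
    have e1 : A.lamS S (z :: δ) = A.cS S δ (cj A.ζ δ (A.ζ z)) := by simp [lamS, hd, hw]
    have e0 : A.lam0 S (z :: δ) = cj A.ζ δ (A.ζ z) := by simp [lam0, hw]
    rw [e1]
    apply lcan (a := A.FF S lam [] (A.gS S δ 1))
    rw [← hom _ (gS_mem δ hδ 1 S.one_mem) _ (cS_mem δ hδ _ hw), ← gS_cS,
      claim _ hδ _ (S.mul_mem _ S.one_mem _ hw), claim _ hδ 1 S.one_mem]
    have h1 := congrArg Prod.fst (psi_step hl z (st := (1, δ)) hδ S.one_mem)
    rcases ds_cases z hδ with ⟨δ', e, h1', h2, h3, h4, h5⟩ | ⟨h1', h2, h3, h4⟩ |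
      ⟨h1', h2, h3, h4⟩
    · exact absurd (by rw [e]; rfl) hh
    · have h3' : step (A.wl S) (A.lam0 S) z ((1 : B), δ) = (1 * cj A.ζ δ (A.ζ z), δ) := by
        show (1 * A.lam0 S (yy z δ), ds (A.wl S) z δ) = _
        rw [h3, h4, e0]
      rw [h3', psi_eq hδ, psi_eq hδ] at h1
      have h4' : (step (A.wl S) lam z (A.FF S lam δ 1, δ)).1 = A.FF S lam δ 1 * lam (z :: δ) := by
        show _ * lam (yy z δ) = _
        rw [h4]
      rw [h4'] at h1
      exact h1
    · exact absurd hw h2

/-- **Every subloop is free on its free labels.** -/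
theorem free_sub (f : List Z → Q) : ∃ F : B → Q,
    (∀ x ∈ S.carrier, ∀ y ∈ S.carrier, F (x * y) = F x * F y) ∧
    ∀ y, A.Free S y → F (A.lamV S y) = f y := by
  obtain ⟨h1, h2⟩ := lamF_ok (A := A) (S := S) f
  refine ⟨A.FF S (A.lamF S f) [], fun x hx y hy => FF_mul h1 hx hy, fun y hy => ?_⟩
  have hV : VL (A.wl S) y := by
    obtain ⟨z, δ, e, h3, h4, -⟩ := hy
    exact ⟨z, δ, e, h3, h4⟩
  rw [FF_lam h1 y hV, h2 y hy]

end Frame

end Pool.Agent.K7.H87.BL
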