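import Mathlib

/-!
# The letters and points of the free Bol loop of exponent two
-/

set_option autoImplicit false

namespace Pool.Agent.K7.H87.BL

universe u

/-- possible letters: the elements of `X`, and the lists of letters (`Ltr.n`) -/
inductive Ltr (X : Type u) : Type u
  | g : X → Ltr X
  | m : (k : ℕ) → (Fin k → Ltr X) → Ltr X

/-- the letter of a list of letters -/
def Ltr.n {X : Type u} (w : List (Ltr X)) : Ltr X :=
  Ltr.m (List.equivSigmaTuple w).1 (List.equivSigmaTuple w).2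

variable {X : Type u}

theorem Ltr.n_inj {w w' : List (Ltr X)} (h : Ltr.n w = Ltr.n w') : w = w' := by
  unfold Ltr.n at h
  injection h with h1 h2
  exact List.equivSigmaTuple.injective (Sigma.ext h1 h2)

theorem Ltr.g_ne_n {x : X} {w : List (Ltr X)} (h : Ltr.g x = Ltr.n w) : False := by
  unfold Ltr.n at h
  injection h

theorem Ltr.g_or_n (z : Ltr X) : (∃ x, z = Ltr.g x) ∨ ∃ w, z = Ltr.n w := by
  cases z with
  | g x => exact Or.inl ⟨x, rfl⟩
  | m k f =>
    right
    refine ⟨List.equivSigmaTuple.symm ⟨k, f⟩, ?_⟩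
    unfold Ltr.n
    rw [Equiv.apply_symm_apply]

/-- the step is a core step -/
def IsCore (z : Ltr X) (x : List (Ltr X)) : Prop := ∃ w, z = Ltr.n w ∧ (x = [] ∨ x = w)

open Classical in
/-- the action of a letter on the points (stacks of letters) -/
noncomputable def act (z : Ltr X) (v : List (Ltr X)) : List (Ltr X) :=
  if h : IsCore z v then (if v = [] then h.choose else [])
  else if v.head? = some z then v.tail else z :: v

/-- valid points -/
def Val : List (Ltr X) → Prop
  | [] => True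
  | z :: v => Val v ∧ v.head? ≠ some z ∧ ∀ w, z = Ltr.n w → v ≠ [] ∧ v ≠ w

/-- points over a set of letters -/
def Om (P : Set (Ltr X)) (v : List (Ltr X)) : Prop := Val v ∧ ∀ z ∈ v, z ∈ P

/-- good sets of letters -/
def Cl (P : Set (Ltr X)) : Prop := ∀ w, Ltr.n w ∈ P → Om P w ∧ w ≠ [] ∧ Ltr.n w ∉ w

theorem act_core1 {w : List (Ltr X)} : act (Ltr.n w) [] = w := by
  have h : IsCore (Ltr.n w) [] := ⟨w, rfl, Or.inl rfl⟩
  have h1 : act (Ltr.n w) [] = h.choose := by
    unfold act
    rw [dif_pos h, if_pos rfl]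
  rw [h1]
  exact (Ltr.n_inj h.choose_spec.1).symm

theorem act_core2 {w : List (Ltr X)} (h : w ≠ []) : act (Ltr.n w) w = [] := by
  have h1 : IsCore (Ltr.n w) w := ⟨w, rfl, Or.inr rfl⟩
  unfold act
  rw [dif_pos h1, if_neg h]

theorem act_cases (z : Ltr X) (x : List (Ltr X)) :
    IsCore z x ∨ (¬ IsCore z x ∧ x.head? ≠ some z ∧ act z x = z :: x) ∨
      (¬ IsCore z x ∧ ∃ x', x = z :: x' ∧ act z x = x') := by
  by_cases hc : IsCore z x
  · exact Or.inl hc
  right
  by_cases h : x.head? = some z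
  · right
    refine ⟨hc, x.tail, ?_, ?_⟩
    · cases x with
      | nil => simp at h
      | cons y x' =>
        simp only [List.head?_cons, Option.some.injEq] at h
        rw [h]; rfl
    · unfold act
      rw [dif_neg hc, if_pos h]
  · left
    refine ⟨hc, h, ?_⟩
    unfold act
    rw [dif_neg hc, if_neg h]

theorem val_head {z : Ltr X} {v : List (Ltr X)} (h : Val (z :: v)) : ¬ IsCore z v := by
  rintro ⟨w, rfl, h1⟩
  exact h1.elim (h.2.2 w rfl).1 (h.2.2 w rfl).2

theorem act_head {z : Ltr X} {v : List (Ltr X)} (h : Val (z :: v)) : act z v = z :: v := by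
  rcases act_cases z v with h1 | ⟨-, -, h1⟩ | ⟨-, x', h1, -⟩
  · exact absurd h1 (val_head h)
  · exact h1
  · exact absurd (by rw [h1]; rfl) h.2.1

theorem Om.tail {P : Set (Ltr X)} {z : Ltr X} {v : List (Ltr X)} (h : Om P (z :: v)) : Om P v :=
  ⟨h.1.1, fun y hy => h.2 y (List.mem_cons_of_mem _ hy)⟩

theorem om_nil {P : Set (Ltr X)} : Om P [] := ⟨trivial, fun _ h => by simp at h⟩

theorem Om.mono {P P' : Set (Ltr X)} (h : P ⊆ P') {v : List (Ltr X)} (hv : Om P v) : Om P' v :=
  ⟨hv.1, fun z hz => h (hv.2 z hz)⟩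

section

variable {P : Set (Ltr X)} (hP : Cl P)
include hP

theorem act_om {z : Ltr X} (hz : z ∈ P) {v : List (Ltr X)} (hv : Om P v) : Om P (act z v) := by
  rcases act_cases z v with ⟨w, rfl, h1⟩ | ⟨hc, h1, h2⟩ | ⟨hc, x', h1, h2⟩
  · obtain ⟨h2, h3, h4⟩ := hP w hz
    rcases h1 with rfl | rfl
    · rw [act_core1]; exact h2
    · rw [act_core2 h3]; exact om_nil
  · rw [h2]
    refine ⟨⟨hv.1, h1, fun w hw => ⟨fun e => hc ⟨w, hw, Or.inl e⟩, fun e => hc ⟨w, hw, Or.inr e⟩⟩⟩,
      fun y hy => ?_⟩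
    rcases List.mem_cons.1 hy with rfl | hy
    · exact hz
    · exact hv.2 y hy
  · rw [h2]; rw [h1] at hv; exact hv.tail

theorem act_act {z : Ltr X} (hz : z ∈ P) {v : List (Ltr X)} (hv : Om P v) :
    act z (act z v) = v := by
  rcases act_cases z v with ⟨w, rfl, h1⟩ | ⟨hc, h1, h2⟩ | ⟨hc, x', h1, h2⟩
  · obtain ⟨h2, h3, h4⟩ := hP w hz
    rcases h1 with rfl | rfl
    · rw [act_core1, act_core2 h3]
    · rw [act_core2 h3, act_core1]
  · rw [h2]
    rcases act_cases z (z :: v) with ⟨w, rfl, h3⟩ | ⟨-, h3, -⟩ | ⟨-, x', h3, h4⟩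
    · exfalso
      rcases h3 with h3 | h3
      · simp at h3
      · have h5 : Ltr.n w ∈ Ltr.n w :: v := List.mem_cons_self
        rw [h3] at h5
        exact (hP w hz).2.2 h5
    · exact absurd rfl h3
    · rw [h4]; exact (List.cons.inj h3).2.symm
  · rw [h2, h1]; rw [h1] at hv; exact act_head hv.1

theorem act_ne {z : Ltr X} (hz : z ∈ P) {v : List (Ltr X)} (_hv : Om P v) : act z v ≠ v := by
  rcases act_cases z v with ⟨w, rfl, h1⟩ | ⟨hc, h1, h2⟩ | ⟨hc, x', h1, h2⟩
  · obtain ⟨h2, h3, h4⟩ := hP w hz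
    rcases h1 with rfl | rfl
    · rw [act_core1]; exact h3
    · rw [act_core2 h3]; exact h3.symm
  · rw [h2]; exact List.cons_ne_self _ _
  · rw [h2, h1]; exact (List.cons_ne_self _ _).symm

theorem core_ne {z : Ltr X} (hz : z ∈ P) {x y : List (Ltr X)} (hx : IsCore z x)
    (hy : IsCore z y) (hne : x ≠ y) : act z x = y := by
  obtain ⟨w, rfl, h1⟩ := hx
  obtain ⟨w', hw', h2⟩ := hy
  obtain rfl := Ltr.n_inj hw'
  have h3 := (hP w hz).2.1
  rcases h1 with rfl | rfl <;> rcases h2 with rfl | rfl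
  · exact absurd rfl hne
  · exact act_core1
  · exact act_core2 h3
  · exact absurd rfl hne

theorem core_act {z : Ltr X} (hz : z ∈ P) {x : List (Ltr X)} (hx : IsCore z x) :
    IsCore z (act z x) := by
  obtain ⟨w, rfl, h1⟩ := hx
  have h3 := (hP w hz).2.1
  rcases h1 with rfl | rfl
  · exact ⟨w, rfl, Or.inr act_core1⟩
  · exact ⟨_, rfl, Or.inl (act_core2 h3)⟩

end

/-- forward run -/
noncomputable def fr : List (Ltr X) → List (Ltr X) → List (Ltr X)
  | [], v => v
  | z :: l, v => act z (fr l v)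

/-- backward run -/
noncomputable def br : List (Ltr X) → List (Ltr X) → List (Ltr X)
  | [], v => v
  | z :: l, v => br l (act z v)

theorem fr_append (l l' v : List (Ltr X)) : fr (l ++ l') v = fr l (fr l' v) := by
  induction l with
  | nil => rfl
  | cons z l ih => show act z (fr (l ++ l') v) = _; rw [ih]; rfl

theorem br_append (l l' : List (Ltr X)) : ∀ v, br (l ++ l') v = br l' (br l v) := by
  induction l with
  | nil => intro v; rfl
  | cons z l ih => intro v; show br (l ++ l') (act z v) = _; rw [ih]; rfl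

theorem fr_reverse (l : List (Ltr X)) : ∀ v, fr l.reverse v = br l v := by
  induction l with
  | nil => intro v; rfl
  | cons z l ih => intro v; rw [List.reverse_cons, fr_append, ih]; rfl

theorem fr_val (v : List (Ltr X)) (h : Val v) : fr v [] = v := by
  induction v with
  | nil => rfl
  | cons z v ih => show act z (fr v []) = _; rw [ih h.1]; exact act_head h

section

variable {P : Set (Ltr X)} (hP : Cl P)
include hP

theorem fr_om {l : List (Ltr X)} (hl : ∀ y ∈ l, y ∈ P) {v : List (Ltr X)} (hv : Om P v) :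
    Om P (fr l v) := by
  induction l with
  | nil => exact hv
  | cons z l ih =>
    exact act_om hP (hl z List.mem_cons_self) (ih fun y hy => hl y (List.mem_cons_of_mem _ hy))

theorem br_om (l : List (Ltr X)) : (∀ y ∈ l, y ∈ P) → ∀ {v : List (Ltr X)}, Om P v →
    Om P (br l v) := by
  induction l with
  | nil => intro _ v hv; exact hv
  | cons z l ih =>
    intro hl v hv
    exact ih (fun y hy => hl y (List.mem_cons_of_mem _ hy))
      (act_om hP (hl z List.mem_cons_self) hv)

theorem br_fr (l : List (Ltr X)) : (∀ y ∈ l, y ∈ P) → ∀ {v : List (Ltr X)}, Om P v →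
    br l (fr l v) = v := by
  induction l with
  | nil => intro _ v hv; rfl
  | cons z l ih =>
    intro hl v hv
    have hl' : ∀ y ∈ l, y ∈ P := fun y hy => hl y (List.mem_cons_of_mem _ hy)
    show br l (act z (act z (fr l v))) = v
    rw [act_act hP (hl z List.mem_cons_self) (fr_om hP hl' hv), ih hl' hv]

theorem fr_br (l : List (Ltr X)) : (∀ y ∈ l, y ∈ P) → ∀ {v : List (Ltr X)}, Om P v →
    fr l (br l v) = v := by
  induction l with
  | nil => intro _ v hv; rfl
  | cons z l ih =>
    intro hl v hv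
    have hl' : ∀ y ∈ l, y ∈ P := fun y hy => hl y (List.mem_cons_of_mem _ hy)
    have hz := hl z List.mem_cons_self
    show act z (fr l (br l (act z v))) = v
    rw [ih hl' (act_om hP hz hv), act_act hP hz hv]

theorem fr_inj {l : List (Ltr X)} (hl : ∀ y ∈ l, y ∈ P) {v v' : List (Ltr X)} (hv : Om P v)
    (hv' : Om P v') (h : fr l v = fr l v') : v = v' := by
  rw [← br_fr hP l hl hv, h, br_fr hP l hl hv']

end

/-- reduced lists -/
def Red (l : List (Ltr X)) : Prop := l.IsChain (· ≠ ·)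

theorem red_val {v : List (Ltr X)} (h : Val v) : Red v := by
  induction v with
  | nil => exact List.IsChain.nil
  | cons z v ih =>
    rw [Red, List.isChain_cons]
    refine ⟨fun y hy e => ?_, ih h.1⟩
    subst e
    exact h.2.1 (by simpa using hy)

theorem red_rev {l : List (Ltr X)} (h : Red l) : Red l.reverse := by
  rw [Red, List.isChain_reverse]
  exact h.imp fun _ _ h => h.symm

theorem red_glue {l x : List (Ltr X)} {z : Ltr X} (h1 : Red (l ++ [z])) (h2 : Red x)
    (h3 : x.head? ≠ some z) : Red (l ++ z :: x) := by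
  rw [Red, List.isChain_split]
  refine ⟨h1, ?_⟩
  rw [List.isChain_cons]
  refine ⟨fun y hy e => ?_, h2⟩
  subst e
  exact h3 (by simpa using hy)

theorem red_mid {a m c : List (Ltr X)} (h : Red (a ++ m ++ c)) : Red m := by
  rw [Red, List.isChain_append, List.isChain_append] at h
  exact h.1.2.1

/-- the levels of a good set of letters -/
structure Lev (P : Set (Ltr X)) (lev : Ltr X → ℕ) : Prop where
  cl : Cl P
  lt : ∀ w, Ltr.n w ∈ P → ∀ y ∈ w, lev y < lev (Ltr.n w)

section

variable {P : Set (Ltr X)} {lev : Ltr X → ℕ} (hL : Lev P lev)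
include hL

/-- points which contain a letter of maximal level grow -/
theorem grow {ζ : Ltr X} {v : List (Ltr X)} (hζ : ζ ∈ v) (l : List (Ltr X))
    (hl : ∀ y ∈ l, y ∈ P ∧ lev y ≤ lev ζ) (h : Red (l ++ v)) : fr l v = l ++ v := by
  induction l with
  | nil => rfl
  | cons z l ih =>
    have h' : Red (l ++ v) := List.IsChain.tail h
    show act z (fr l v) = _
    rw [ih (fun y hy => hl y (List.mem_cons_of_mem _ hy)) h']
    have hm : ζ ∈ l ++ v := List.mem_append_right _ hζ
    rcases act_cases z (l ++ v) with ⟨w, rfl, h1⟩ | ⟨-, -, h1⟩ | ⟨-, x', h1, -⟩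
    · exfalso
      have h2 := hl (Ltr.n w) List.mem_cons_self
      rcases h1 with h1 | h1
      · rw [h1] at hm; simp at hm
      · rw [h1] at hm
        have := hL.lt w h2.1 ζ hm
        omega
    · exact h1
    · exfalso
      have h2 : Red (z :: (l ++ v)) := h
      rw [h1, Red, List.isChain_cons_cons] at h2
      exact h2.1 rfl

/-- closed cyclically reduced paths use the letters of maximal level only in core edges -/
theorem coreStep {l1 l2 : List (Ltr X)} {ζ : Ltr X} {p : List (Ltr X)}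
    (hl : ∀ y ∈ l2 ++ ζ :: l1, y ∈ P ∧ lev y ≤ lev ζ) (hp : Om P p)
    (hc : fr (l2 ++ ζ :: l1) p = p) (hr : Red ((l2 ++ ζ :: l1) ++ (l2 ++ ζ :: l1))) :
    IsCore ζ (fr l1 p) := by
  have hP := hL.cl
  set x := fr l1 p with hx
  have hl1 : ∀ y ∈ l1, y ∈ P := fun y hy => (hl y (by simp [hy])).1
  have hl2 : ∀ y ∈ l2, y ∈ P := fun y hy => (hl y (by simp [hy])).1
  have hζ : ζ ∈ P := (hl ζ (by simp)).1
  have hxo : Om P x := fr_om hP hl1 hp
  have hc2 : fr l2 (act ζ x) = p := by
    rw [fr_append] at hc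
    exact hc
  have hl12 : ∀ y ∈ l1 ++ l2, y ∈ P ∧ lev y ≤ lev ζ := by
    intro y hy
    apply hl
    rcases List.mem_append.1 hy with h | h
    · simp [h]
    · simp [h]
  have e0 : (l2 ++ ζ :: l1) ++ (l2 ++ ζ :: l1) = (l2 ++ [ζ]) ++ ((l1 ++ l2) ++ [ζ]) ++ l1 := by
    simp
  have e1 : (l2 ++ ζ :: l1) ++ (l2 ++ ζ :: l1) = l2 ++ (ζ :: (l1 ++ l2)) ++ (ζ :: l1) := by
    simp
  rcases act_cases ζ x with h1 | ⟨-, h1, h2⟩ | ⟨-, x', h1, h2⟩
  · exact h1
  · exfalso
    have h3 : Red ((l1 ++ l2) ++ [ζ]) := by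
      rw [e0] at hr
      exact red_mid hr
    have h4 := grow hL (ζ := ζ) (v := ζ :: x) List.mem_cons_self (l1 ++ l2) hl12
      (red_glue h3 (red_val hxo.1) h1)
    have h5 : fr (l1 ++ l2) (ζ :: x) = x := by
      rw [fr_append, ← h2, hc2]
    rw [h5] at h4
    have := congrArg List.length h4
    simp at this
    omega
  · exfalso
    have h3 : Red ((l1 ++ l2).reverse ++ [ζ]) := by
      have h6 : Red (ζ :: (l1 ++ l2)) := by
        rw [e1] at hr
        exact red_mid hr
      have h7 := red_rev h6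
      rwa [List.reverse_cons] at h7
    have hxo' : Om P x' := by rw [h1] at hxo; exact hxo.tail
    have h8 : Val (ζ :: x') := by rw [← h1]; exact hxo.1
    have h4 := grow hL (ζ := ζ) (v := ζ :: x') List.mem_cons_self (l1 ++ l2).reverse
      (fun y hy => hl12 y (List.mem_reverse.1 hy)) (red_glue h3 (red_val hxo'.1) h8.2.1)
    have h5 : fr (l1 ++ l2).reverse (ζ :: x') = x' := by
      rw [fr_reverse, br_append, ← h1, hx, br_fr hP l1 hl1 hp, ← hc2, h2, br_fr hP l2 hl2 hxo']
    rw [h5] at h4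
    have := congrArg List.length h4
    simp at this
    omega

end

/-- adjacency by a reflection with letters in `P` -/
def Adj (P : Set (Ltr X)) (u v : List (Ltr X)) : Prop :=
  ∃ (l : List (Ltr X)) (z : Ltr X), (∀ y ∈ l, y ∈ P) ∧ z ∈ P ∧ v = br l (act z (fr l u))

theorem Adj.mono {P P' : Set (Ltr X)} (h : P ⊆ P') {u v : List (Ltr X)} (ha : Adj P u v) :
    Adj P' u v := by
  obtain ⟨l, z, h1, h2, h3⟩ := ha
  exact ⟨l, z, fun y hy => h (h1 y hy), h h2, h3⟩

theorem Adj.symm {P R : Set (Ltr X)} (hP : Cl P) (hR : R ⊆ P) {u v : List (Ltr X)}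
    (hu : Om P u) (h : Adj R u v) : Adj R v u := by
  obtain ⟨l, z, h1, h2, rfl⟩ := h
  have h1' : ∀ y ∈ l, y ∈ P := fun y hy => hR (h1 y hy)
  refine ⟨l, z, h1, h2, ?_⟩
  rw [fr_br hP l h1' (act_om hP (hR h2) (fr_om hP h1' hu)),
    act_act hP (hR h2) (fr_om hP h1' hu), br_fr hP l h1' hu]

/-- adjacency is invariant -/
theorem Adj.run {P R : Set (Ltr X)} (hP : Cl P) (hR : R ⊆ P) {u v : List (Ltr X)} (hu : Om P u)
    (h : Adj R u v) {k : List (Ltr X)} (hk : ∀ y ∈ k, y ∈ R) : Adj R (fr k u) (fr k v) := by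
  obtain ⟨l, z, h1, h2, rfl⟩ := h
  refine ⟨l ++ k.reverse, z, ?_, h2, ?_⟩
  · intro y hy
    rcases List.mem_append.1 hy with h | h
    · exact h1 y h
    · exact hk y (List.mem_reverse.1 h)
  · rw [fr_append, fr_reverse, br_fr hP k (fun y hy => hR (hk y hy)) hu, br_append]
    have h3 : ∀ v, br k.reverse v = fr k v := by
      intro v
      have := fr_reverse k.reverse v
      rw [List.reverse_reverse] at this
      exact this.symm
    rw [h3]

end Pool.Agent.K7.H87.BL
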