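import Mathlib
import Pool.Agent.K7.H87.BL.Ltr

/-!
# Uniqueness of reflections
-/

set_option autoImplicit false

namespace Pool.Agent.K7.H87.BL

universe u

variable {X : Type u}

theorem exists_max (lev : Ltr X → ℕ) : ∀ L : List (Ltr X), L ≠ [] →
    ∃ ζ ∈ L, ∀ y ∈ L, lev y ≤ lev ζ := by
  intro L
  induction L with
  | nil => intro h; exact absurd rfl h
  | cons z L ih =>
    intro _
    by_cases hL : L = []
    · subst hL
      exact ⟨z, by simp, by simp⟩
    obtain ⟨ζ, h1, h2⟩ := ih hL
    rcases le_total (lev ζ) (lev z) with h | h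
    · refine ⟨z, by simp, fun y hy => ?_⟩
      rcases List.mem_cons.1 hy with rfl | hy
      · exact le_rfl
      · exact (h2 y hy).trans h
    · refine ⟨ζ, by simp [h1], fun y hy => ?_⟩
      rcases List.mem_cons.1 hy with rfl | hy
      · exact h
      · exact h2 y hy

theorem red_self {L : List (Ltr X)} (h : Red L) (h2 : ∀ x ∈ L.getLast?, ∀ y ∈ L.head?, x ≠ y) :
    Red (L ++ L) := by
  rw [Red, List.isChain_append]
  exact ⟨h, h, h2⟩

theorem red4 {L : List (Ltr X)} (h : Red (L ++ L)) : Red ((L ++ L) ++ (L ++ L)) := by
  have h1 := h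
  rw [Red, List.isChain_append] at h1
  apply red_self h
  by_cases hL : L = []
  · subst hL; simp
  · rw [List.getLast?_append_of_ne_nil _ hL, List.head?_append_of_ne_nil _ hL]
    exact h1.2.2

/-- a reduced list which is not cyclically reduced -/
theorem not_cyc {L : List (Ltr X)} (h : Red L) (h2 : ¬ Red (L ++ L)) :
    (∃ z, L = [z]) ∨ ∃ z L', L' ≠ [] ∧ L = z :: (L' ++ [z]) := by
  have h3 : ∃ x ∈ L.getLast?, ∃ y ∈ L.head?, x = y := by
    by_contra hcon
    push Not at hcon
    exact h2 (red_self h hcon)
  obtain ⟨x, hx, y, hy, rfl⟩ := h3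
  cases L with
  | nil => simp at hy
  | cons z t =>
    simp only [List.head?_cons, Option.mem_def, Option.some.injEq] at hy
    subst hy
    by_cases ht : t = []
    · left; exact ⟨z, by rw [ht]⟩
    right
    have h4 : t.getLast ht = z := by
      rw [List.getLast?_cons_of_ne_nil ht] at hx
      rw [List.getLast?_eq_getLast_of_ne_nil ht] at hx
      simpa using hx
    refine ⟨z, t.dropLast, ?_, ?_⟩
    · intro h5
      have h6 := List.dropLast_append_getLast ht
      rw [h5, h4] at h6
      rw [← h6] at h
      simp [Red] at h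
    · conv_lhs => rw [← List.dropLast_append_getLast ht, h4]

section

variable {P : Set (Ltr X)} {lev : Ltr X → ℕ} (hL : Lev P lev)
include hL

theorem fix_adj : ∀ (n : ℕ) (L : List (Ltr X)), L.length = n → L ≠ [] → Red L →
    (∀ y ∈ L, y ∈ P) → ∀ u u', Om P u → Om P u' → u ≠ u' → fr L u = u → fr L u' = u' →
    Adj {y | y ∈ L} u u' := by
  have hP := hL.cl
  intro n
  induction n using Nat.strong_induction_on with
  | _ n ih =>
    intro L hn hne hr hLP u u' hu hu' huu h1 h2
    by_cases hc : Red (L ++ L)
    · obtain ⟨ζ, hζ, hmax⟩ := exists_max lev L hne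
      obtain ⟨l2, l1, rfl⟩ := List.append_of_mem hζ
      have hl1 : ∀ y ∈ l1, y ∈ P := fun y hy => hLP y (by simp [hy])
      have c1 := coreStep hL (l1 := l1) (l2 := l2) (ζ := ζ) (p := u)
        (fun y hy => ⟨hLP y hy, hmax y hy⟩) hu h1 hc
      have c2 := coreStep hL (l1 := l1) (l2 := l2) (ζ := ζ) (p := u')
        (fun y hy => ⟨hLP y hy, hmax y hy⟩) hu' h2 hc
      have h3 : act ζ (fr l1 u) = fr l1 u' :=
        core_ne hP (hLP ζ hζ) c1 c2 (fun e => huu (fr_inj hP hl1 hu hu' e))
      exact ⟨l1, ζ, fun y hy => by simp [hy], hζ, by rw [h3, br_fr hP l1 hl1 hu']⟩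
    · rcases not_cyc hr hc with ⟨z, rfl⟩ | ⟨z, L', hL', rfl⟩
      · exact absurd h1 (act_ne hP (hLP z (by simp)) hu)
      · have hz : z ∈ P := hLP z (by simp)
        have hLP' : ∀ y ∈ L', y ∈ P := fun y hy => hLP y (by simp [hy])
        have hr' : Red L' := red_mid (a := [z]) (c := [z]) (by simpa using hr)
        have e : ∀ v, fr (z :: (L' ++ [z])) v = act z (fr L' (act z v)) := by
          intro v
          show act z (fr (L' ++ [z]) v) = _
          rw [fr_append]
          rfl
        have e2 : ∀ v, Om P v → fr (z :: (L' ++ [z])) v = v → fr L' (act z v) = act z v := by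
          intro v hv h
          rw [e] at h
          have h4 := congrArg (act z) h
          rwa [act_act hP hz (fr_om hP hLP' (act_om hP hz hv))] at h4
        have h5 := ih L'.length (by simp at hn; omega) L' rfl hL' hr' hLP' (act z u) (act z u')
          (act_om hP hz hu) (act_om hP hz hu')
          (fun e => huu (by
            have := congrArg (act z) e
            rwa [act_act hP hz hu, act_act hP hz hu'] at this)) (e2 u hu h1) (e2 u' hu' h2)
        have h6 := Adj.run hP (R := {y | y ∈ z :: (L' ++ [z])}) (fun y hy => hLP y hy)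
          (act_om hP hz hu) (h5.mono (fun y hy => by
            show y ∈ z :: (L' ++ [z]); simp [show y ∈ L' from hy])) (k := [z]) (by simp)
        have h7 : ∀ v, Om P v → fr [z] (act z v) = v := fun v hv => act_act hP hz hv
        rw [h7 u hu, h7 u' hu'] at h6
        exact h6

theorem swap_adj : ∀ (n : ℕ) (L : List (Ltr X)), L.length = n → L ≠ [] → Red L →
    (∀ y ∈ L, y ∈ P) → ∀ u u', Om P u → Om P u' → u ≠ u' → fr L u = u' → fr L u' = u →
    Adj {y | y ∈ L} u u' := by
  have hP := hL.cl
  intro n
  induction n using Nat.strong_induction_on with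
  | _ n ih =>
    intro L hn hne hr hLP u u' hu hu' huu h1 h2
    by_cases hc : Red (L ++ L)
    · obtain ⟨ζ, hζ, hmax⟩ := exists_max lev L hne
      obtain ⟨l2, l1, hsp⟩ := List.append_of_mem hζ
      have hl1 : ∀ y ∈ l1, y ∈ P := fun y hy => hLP y (by rw [hsp]; simp [hy])
      have hmax2 : ∀ y ∈ L ++ L, y ∈ P ∧ lev y ≤ lev ζ := by
        intro y hy
        have : y ∈ L := by simpa using hy
        exact ⟨hLP y this, hmax y this⟩
      have e1 : L ++ L = (L ++ l2) ++ ζ :: l1 := by
        conv_lhs => rw [hsp]
        rw [hsp]; simp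
      have e2 : L ++ L = l2 ++ ζ :: (l1 ++ L) := by
        conv_lhs => rw [hsp]
        rw [hsp]; simp
      have hcl : fr (L ++ L) u = u := by rw [fr_append, h1, h2]
      have c1 : IsCore ζ (fr l1 u) := coreStep hL (l1 := l1) (l2 := L ++ l2) (ζ := ζ) (p := u)
        (by rw [← e1]; exact hmax2) hu (by rw [← e1]; exact hcl) (by rw [← e1]; exact red4 hc)
      have c2 : IsCore ζ (fr (l1 ++ L) u) := coreStep hL (l1 := l1 ++ L) (l2 := l2) (ζ := ζ)
        (p := u) (by rw [← e2]; exact hmax2) hu (by rw [← e2]; exact hcl)
        (by rw [← e2]; exact red4 hc)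
      rw [fr_append, h1] at c2
      have h3 : act ζ (fr l1 u) = fr l1 u' :=
        core_ne hP (hLP ζ hζ) c1 c2 (fun e => huu (fr_inj hP hl1 hu hu' e))
      exact ⟨l1, ζ, fun y hy => by show y ∈ L; rw [hsp]; simp [hy], hζ,
        by rw [h3, br_fr hP l1 hl1 hu']⟩
    · rcases not_cyc hr hc with ⟨z, rfl⟩ | ⟨z, L', hL', rfl⟩
      · exact ⟨[], z, by simp, by simp, h1.symm⟩
      · have hz : z ∈ P := hLP z (by simp)
        have hLP' : ∀ y ∈ L', y ∈ P := fun y hy => hLP y (by simp [hy])
        have hr' : Red L' := red_mid (a := [z]) (c := [z]) (by simpa using hr)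
        have e : ∀ v, fr (z :: (L' ++ [z])) v = act z (fr L' (act z v)) := by
          intro v
          show act z (fr (L' ++ [z]) v) = _
          rw [fr_append]
          rfl
        have e2 : ∀ v v', Om P v → fr (z :: (L' ++ [z])) v = v' → fr L' (act z v) = act z v' := by
          intro v v' hv h
          rw [e] at h
          have h4 := congrArg (act z) h
          rwa [act_act hP hz (fr_om hP hLP' (act_om hP hz hv))] at h4
        have h5 := ih L'.length (by simp at hn; omega) L' rfl hL' hr' hLP' (act z u) (act z u')
          (act_om hP hz hu) (act_om hP hz hu')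
          (fun e => huu (by
            have := congrArg (act z) e
            rwa [act_act hP hz hu, act_act hP hz hu'] at this)) (e2 u u' hu h1) (e2 u' u hu' h2)
        have h6 := Adj.run hP (R := {y | y ∈ z :: (L' ++ [z])}) (fun y hy => hLP y hy)
          (act_om hP hz hu) (h5.mono (fun y hy => by
            show y ∈ z :: (L' ++ [z]); simp [show y ∈ L' from hy])) (k := [z]) (by simp)
        have h7 : ∀ v, Om P v → fr [z] (act z v) = v := fun v hv => act_act hP hz hv
        rw [h7 u hu, h7 u' hu'] at h6
        exact h6

end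

/-- sets of letters in which reflections are unique -/
structure Shp (P : Set (Ltr X)) (lev : Ltr X → ℕ) : Prop extends Lev P lev where
  n1 : ∀ w, Ltr.n w ∈ P → ¬ Adj {y | y ∈ P ∧ lev y < lev (Ltr.n w)} [] w
  n2 : ∀ w w', Ltr.n w ∈ P → Ltr.n w' ∈ P → lev (Ltr.n w) = lev (Ltr.n w') →
    ∀ k, (∀ y ∈ k, y ∈ P ∧ lev y < lev (Ltr.n w)) →
    ((fr k [] = [] ∧ fr k w = w') ∨ (fr k [] = w' ∧ fr k w = [])) → w = w'

theorem not_red {v : List (Ltr X)} (h : ¬ Red v) : ∃ a y b, v = a ++ y :: y :: b := by
  induction v with
  | nil => exact absurd List.IsChain.nil h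
  | cons z v ih =>
    by_cases hv : Red v
    · cases v with
      | nil => exact absurd (List.IsChain.singleton z) h
      | cons y b =>
        rw [Red, List.isChain_cons_cons] at h
        have : z = y := by
          by_contra hne
          exact h ⟨hne, hv⟩
        subst this
        exact ⟨[], z, b, rfl⟩
    · obtain ⟨a, y, b, rfl⟩ := ih hv
      exact ⟨z :: a, y, b, rfl⟩

section

variable {P : Set (Ltr X)} {lev : Ltr X → ℕ} (hS : Shp P lev)
include hS

/-- the two points of a core edge are not adjacent by lower reflections -/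
theorem core_nadj {z : Ltr X} (hz : z ∈ P) {x y : List (Ltr X)} (hx : IsCore z x)
    (hy : IsCore z y) (hne : x ≠ y) : ¬ Adj {y | y ∈ P ∧ lev y < lev z} x y := by
  intro h
  have hP := hS.cl
  obtain ⟨w, rfl, h1⟩ := hx
  obtain ⟨w', hw', h2⟩ := hy
  obtain rfl := Ltr.n_inj hw'
  have hw := hP w hz
  rcases h1 with rfl | rfl <;> rcases h2 with rfl | rfl
  · exact hne rfl
  · exact hS.n1 _ hz h
  · exact hS.n1 _ hz (h.symm hP (fun y hy => hy.1) hw.1)
  · exact hne rfl

/-- **reflections are unique** -/
theorem sharp : ∀ (n : ℕ) (v : List (Ltr X)), v.length = n → (∀ y ∈ v, y ∈ P) →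
    ∀ z ∈ P, ∀ z' ∈ P, ∀ p, Om P p → act z p = br v (act z' (fr v p)) →
    ∀ q, Om P q → act z q = br v (act z' (fr v q)) := by
  have hP := hS.cl
  have hL := hS.toLev
  intro n
  induction n using Nat.strong_induction_on with
  | _ n ih =>
    intro v hn hv z hz z' hz' p hp he q hq
    -- not reduced
    by_cases hr : Red v
    swap
    · obtain ⟨a, y, b, rfl⟩ := not_red hr
      have ha : ∀ x ∈ a, x ∈ P := fun x hx => hv x (by simp [hx])
      have hb : ∀ x ∈ b, x ∈ P := fun x hx => hv x (by simp [hx])
      have hy : y ∈ P := hv y (by simp)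
      have hab : ∀ x ∈ a ++ b, x ∈ P := fun x hx => by
        rcases List.mem_append.1 hx with h | h
        · exact ha x h
        · exact hb x h
      have e1 : ∀ x, Om P x → fr (a ++ y :: y :: b) x = fr (a ++ b) x := by
        intro x hx
        rw [fr_append, fr_append]
        show fr a (act y (act y (fr b x))) = _
        rw [act_act hP hy (fr_om hP hb hx)]
      have e2 : ∀ x, Om P x → br (a ++ y :: y :: b) x = br (a ++ b) x := by
        intro x hx
        rw [br_append, br_append]
        show br b (act y (act y (br a x))) = _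
        rw [act_act hP hy (br_om hP a ha hx)]
      rw [e1 q hq, e2 _ (act_om hP hz' (fr_om hP hab hq))]
      rw [e1 p hp, e2 _ (act_om hP hz' (fr_om hP hab hp))] at he
      exact ih (a ++ b).length (by simp at hn ⊢; omega) (a ++ b) rfl hab z hz z' hz' p hp he q hq
    -- the first letter is `z`
    by_cases hlast : v.getLast? = some z
    · have hne : v ≠ [] := by rintro rfl; simp at hlast
      obtain ⟨v1, rfl⟩ : ∃ v1, v = v1 ++ [z] := by
        refine ⟨v.dropLast, ?_⟩
        conv_lhs => rw [← List.dropLast_append_getLast hne]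
        congr 2
        rw [List.getLast?_eq_getLast_of_ne_nil hne] at hlast
        simpa using hlast
      have hv1 : ∀ y ∈ v1, y ∈ P := fun y hy => hv y (by simp [hy])
      have e1 : ∀ x, fr (v1 ++ [z]) x = fr v1 (act z x) := fun x => by rw [fr_append]; rfl
      have e2 : ∀ x, br (v1 ++ [z]) x = act z (br v1 x) := fun x => by rw [br_append]; rfl
      rw [e1, e2] at he
      have hzp := act_om hP hz hp
      have hq' := act_om hP hz hq
      have h1 := congrArg (act z) he
      rw [act_act hP hz (br_om hP v1 hv1 (act_om hP hz' (fr_om hP hv1 hzp)))] at h1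
      have h2 := ih v1.length (by simp at hn; omega) v1 rfl hv1 z hz z' hz' (act z p) hzp h1
        (act z q) hq'
      rw [e1, e2, ← h2, act_act hP hz hq', ]
    -- the last letter is `z'`
    by_cases hhead : v.head? = some z'
    · cases v with
      | nil => simp at hhead
      | cons y v1 =>
      simp only [List.head?_cons, Option.some.injEq] at hhead
      subst hhead
      have hv1 : ∀ x ∈ v1, x ∈ P := fun x hx => hv x (by simp [hx])
      have e1 : ∀ x, Om P x → br (y :: v1) (act y (fr (y :: v1) x)) =
          br v1 (act y (fr v1 x)) := by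
        intro x hx
        show br v1 (act y (act y (act y (fr v1 x)))) = _
        rw [act_act hP hz' (act_om hP hz' (fr_om hP hv1 hx))]
      rw [e1 q hq]
      rw [e1 p hp] at he
      exact ih v1.length (by simp at hn; omega) v1 rfl hv1 z hz y hz' p hp he q hq
    -- the trivial case
    by_cases htriv : v = [] ∧ z = z'
    · obtain ⟨rfl, rfl⟩ := htriv
      rfl
    -- the main case
    have hvr : ∀ y ∈ v.reverse, y ∈ P := fun y hy => hv y (List.mem_reverse.1 hy)
    have hzp := act_om hP hz hp
    have hne : act z p ≠ p := act_ne hP hz hp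
    set L := v.reverse ++ z' :: (v ++ [z]) with hLdef
    have hLP : ∀ y ∈ L, y ∈ P := by
      intro y hy
      simp only [hLdef, List.mem_append, List.mem_reverse, List.mem_cons,
        List.not_mem_nil, or_false] at hy
      rcases hy with h | h | h | h
      · exact hv y h
      · rw [h]; exact hz'
      · exact hv y h
      · rw [h]; exact hz
    have hback : act z' (fr v (act z p)) = fr v p := by
      have h1 : act z' (fr v (act z p)) = act z' (fr v (br v (act z' (fr v p)))) :=
        congrArg (fun x => act z' (fr v x)) he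
      rw [h1, fr_br hP v hv (act_om hP hz' (fr_om hP hv hp)), act_act hP hz' (fr_om hP hv hp)]
    have hcl : fr L p = p := by
      rw [hLdef, fr_append]
      show fr v.reverse (act z' (fr (v ++ [z]) p)) = p
      rw [fr_append]
      show fr v.reverse (act z' (fr v (act z p))) = p
      rw [hback, fr_reverse, br_fr hP v hv hp]
    have hred : Red (L ++ L) := by
      have r1 : Red (v ++ [z]) := by
        rw [Red, List.isChain_append]
        refine ⟨hr, List.IsChain.singleton z, fun x hx y hy e => ?_⟩
        simp only [List.head?_cons, Option.mem_def, Option.some.injEq] at hy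
        subst hy
        subst e
        exact hlast hx
      have r2 : Red (z' :: (v ++ [z])) := by
        rw [Red, List.isChain_cons]
        refine ⟨fun y hy e => ?_, r1⟩
        subst e
        cases v with
        | nil =>
          simp only [List.nil_append, List.head?_cons, Option.mem_def, Option.some.injEq] at hy
          exact htriv ⟨rfl, hy⟩
        | cons a v => exact hhead hy
      have r3 : Red L := by
        rw [hLdef, Red, List.isChain_append]
        refine ⟨red_rev hr, r2, fun x hx y hy e => ?_⟩
        simp only [List.head?_cons, Option.mem_def, Option.some.injEq] at hy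
        subst hy
        subst e
        rw [List.getLast?_reverse] at hx
        exact hhead hx
      apply red_self r3
      intro x hx y hy e
      subst e
      have hx' : x = z := by
        rw [hLdef, List.getLast?_append_of_ne_nil _ (by simp),
          List.getLast?_cons_of_ne_nil (by simp), List.getLast?_append_of_ne_nil _ (by simp)] at hx
        simpa using hx.symm
      subst hx'
      by_cases hv0 : v = []
      · subst hv0
        simp only [hLdef, List.reverse_nil, List.nil_append, List.head?_cons, Option.mem_def,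
          Option.some.injEq] at hy
        exact htriv ⟨rfl, hy.symm⟩
      · rw [hLdef, List.head?_append_of_ne_nil _ (by simpa using hv0), List.head?_reverse] at hy
        exact hlast hy
    by_cases hA : ∃ ζ ∈ v, ∀ y ∈ L, lev y ≤ lev ζ
    · -- a letter of `v` has maximal level
      obtain ⟨ζ, hζ, hmax⟩ := hA
      have hζP := hv ζ hζ
      obtain ⟨v2, v1, hsp⟩ := List.append_of_mem hζ
      have hv1 : ∀ y ∈ v1, y ∈ P := fun y hy => hv y (by rw [hsp]; simp [hy])
      have hv2 : ∀ y ∈ v2, y ∈ P := fun y hy => hv y (by rw [hsp]; simp [hy])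
      have e1 : L = (v.reverse ++ z' :: v2) ++ ζ :: (v1 ++ [z]) := by
        rw [hLdef]
        conv_lhs => rw [hsp]
        rw [hsp]; simp
      have e2 : L = v1.reverse ++ ζ :: (v2.reverse ++ z' :: (v ++ [z])) := by
        rw [hLdef]
        conv_lhs => rw [hsp]
        rw [hsp]; simp
      have c1 : IsCore ζ (fr (v1 ++ [z]) p) := coreStep hL (l2 := v.reverse ++ z' :: v2)
        (by rw [← e1]; exact fun y hy => ⟨hLP y hy, hmax y hy⟩) hp (by rw [← e1]; exact hcl)
        (by rw [← e1]; exact hred)
      have c2 : IsCore ζ (fr (v2.reverse ++ z' :: (v ++ [z])) p) := coreStep hL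
        (l2 := v1.reverse)
        (by rw [← e2]; exact fun y hy => ⟨hLP y hy, hmax y hy⟩) hp (by rw [← e2]; exact hcl)
        (by rw [← e2]; exact hred)
      rw [fr_append] at c1
      have c1' : IsCore ζ (fr v1 (act z p)) := c1
      have c3 := core_act hP hζP c2
      have hom2 : Om P (act ζ (fr (v2.reverse ++ z' :: (v ++ [z])) p)) := by
        apply act_om hP hζP
        apply fr_om hP _ hp
        intro y hy
        apply hLP
        rw [e2]
        simp only [List.mem_append, List.mem_cons] at hy ⊢
        tauto
      have h4 : act ζ (fr (v2.reverse ++ z' :: (v ++ [z])) p) = fr v1 p := by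
        have h5 : fr v1.reverse (act ζ (fr (v2.reverse ++ z' :: (v ++ [z])) p)) = p := by
          have h6 := hcl
          rw [e2, fr_append] at h6
          exact h6
        rw [fr_reverse] at h5
        rw [← fr_br hP v1 hv1 hom2, h5]
      rw [h4] at c3
      have h5 : act ζ (fr v1 p) = fr v1 (act z p) :=
        core_ne hP hζP c3 c1' (fun e => hne (fr_inj hP hv1 hp hzp e).symm)
      have h6 : act z p = br v1 (act ζ (fr v1 p)) := by rw [h5, br_fr hP v1 hv1 hzp]
      have len1 : v1.length < n := by rw [← hn, hsp]; simp; omega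
      have len2 : v2.length < n := by rw [← hn, hsp]; simp
      have H1 := ih _ len1 v1 rfl hv1 z hz ζ hζP p hp h6
      have hfr : ∀ x, fr v x = fr v2 (act ζ (fr v1 x)) := by
        intro x; rw [hsp, fr_append]; rfl
      have hbr : ∀ x, br v x = br v1 (act ζ (br v2 x)) := by
        intro x; rw [hsp, br_append]; rfl
      set p2 := act ζ (fr v1 p) with hp2
      have hp2o : Om P p2 := act_om hP hζP (fr_om hP hv1 hp)
      have h7 : act ζ p2 = br v2 (act z' (fr v2 p2)) := by
        have hX : Om P (br v2 (act z' (fr v2 p2))) :=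
          br_om hP v2 hv2 (act_om hP hz' (fr_om hP hv2 hp2o))
        have h8 : p2 = act ζ (br v2 (act z' (fr v2 p2))) := by
          have h9 := congrArg (fr v1) he
          rw [hfr, hbr, ← hp2, fr_br hP v1 hv1 (act_om hP hζP hX), ← h5] at h9
          exact h9
        conv_lhs => rw [h8]
        rw [act_act hP hζP hX]
      have H2 := ih _ len2 v2 rfl hv2 ζ hζP z' hz' p2 hp2o h7
      have hq1 : Om P (act ζ (fr v1 q)) := act_om hP hζP (fr_om hP hv1 hq)
      rw [hfr, hbr, ← H2 _ hq1, act_act hP hζP hq1]
      exact H1 q hq
    · -- no letter of `v` has maximal level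
      obtain ⟨ζ, hζ, hmax⟩ := exists_max lev L (by rw [hLdef]; simp)
      have hζv : ∀ y ∈ v, lev y < lev ζ := by
        intro y hy
        have h1 : y ∈ L := by rw [hLdef]; simp [hy]
        refine lt_of_le_of_ne (hmax y h1) fun e => hA ⟨y, hy, fun x hx => ?_⟩
        rw [e]; exact hmax x hx
      have hzL : z ∈ L := by rw [hLdef]; simp
      have hz'L : z' ∈ L := by rw [hLdef]; simp
      have hζc : ζ = z ∨ ζ = z' := by
        have h1 := hζ
        simp only [hLdef, List.mem_append, List.mem_reverse, List.mem_cons,
          List.not_mem_nil, or_false] at h1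
        rcases h1 with h | h | h | h
        · exact absurd (hζv ζ h) (lt_irrefl _)
        · exact Or.inr h
        · exact absurd (hζv ζ h) (lt_irrefl _)
        · exact Or.inl h
      have d1 : lev z = lev ζ → IsCore z p := by
        intro hz1
        have e1 : L = (v.reverse ++ z' :: v) ++ z :: [] := by rw [hLdef]; simp
        exact coreStep hL (l1 := []) (l2 := v.reverse ++ z' :: v)
          (by rw [← e1]; exact fun y hy => ⟨hLP y hy, by rw [hz1]; exact hmax y hy⟩) hp
          (by rw [← e1]; exact hcl) (by rw [← e1]; exact hred)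
      have d2 : lev z' = lev ζ → IsCore z' (fr v (act z p)) := by
        intro hz1
        have h1 : IsCore z' (fr (v ++ [z]) p) := coreStep hL (l1 := v ++ [z]) (l2 := v.reverse)
          (fun y hy => ⟨hLP y hy, by rw [hz1]; exact hmax y hy⟩) hp hcl hred
        rw [fr_append] at h1
        exact h1
      rcases (hmax z hzL).lt_or_eq with hz1 | hz1
      · -- `z` is lower
        have hz2 : lev z' = lev ζ := by
          rcases hζc with h | h
          · rw [h] at hz1; exact absurd hz1 (lt_irrefl _)
          · rw [h]
        exfalso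
        have c1 := d2 hz2
        have c2 := core_act hP hz' c1
        rw [hback] at c2
        have h1 : Adj {y | y ∈ P ∧ lev y < lev z'} p (act z p) :=
          ⟨[], z, by simp, ⟨hz, by rw [hz2]; exact hz1⟩, rfl⟩
        have h2 := h1.run hP (fun y hy => hy.1) hp (k := v)
          (fun y hy => ⟨hv y hy, by rw [hz2]; exact hζv y hy⟩)
        exact core_nadj hS hz' c2 c1 (fun e => hne (fr_inj hP hv hp hzp e).symm) h2
      · have c0 := d1 hz1
        have c0' := core_act hP hz c0
        rcases (hmax z' hz'L).lt_or_eq with hz2 | hz2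
        · exfalso
          have h1 : Adj {y | y ∈ P ∧ lev y < lev z} p (act z p) :=
            ⟨v, z', fun y hy => ⟨hv y hy, by rw [hz1]; exact hζv y hy⟩,
              ⟨hz', by rw [hz1]; exact hz2⟩, he⟩
          exact core_nadj hS hz c0 c0' hne.symm h1
        · exfalso
          have c1 := d2 hz2
          have c2 := core_act hP hz' c1
          rw [hback] at c2
          have hfne : fr v p ≠ fr v (act z p) := fun e => hne (fr_inj hP hv hp hzp e).symm
          obtain ⟨w, rfl, hw⟩ := c0
          obtain ⟨w1, hw1, hw2⟩ := c0'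
          obtain rfl := Ltr.n_inj hw1
          obtain ⟨w', rfl, hw'⟩ := c1
          obtain ⟨w1, hw1, hw3⟩ := c2
          obtain rfl := Ltr.n_inj hw1
          -- the pair
          have hpair : (fr v [] = [] ∧ fr v w = w') ∨ (fr v [] = w' ∧ fr v w = []) := by
            rcases hw with hw | hw
            · have h8 : act (Ltr.n w) p = w := by rw [hw, act_core1]
              rw [h8] at hw' hfne
              rw [hw] at hw3 hfne
              rcases hw' with h | h <;> rcases hw3 with h' | h'
              · exact absurd (h'.trans h.symm) hfne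
              · exact Or.inr ⟨h', h⟩
              · exact Or.inl ⟨h', h⟩
              · exact absurd (h'.trans h.symm) hfne
            · have h8 : act (Ltr.n w) p = [] := by rw [hw]; exact act_core2 (hP w hz).2.1
              rw [h8] at hw' hfne
              rw [hw] at hw3 hfne
              rcases hw' with h | h <;> rcases hw3 with h' | h'
              · exact absurd (h'.trans h.symm) hfne
              · exact Or.inl ⟨h, h'⟩
              · exact Or.inr ⟨h, h'⟩
              · exact absurd (h'.trans h.symm) hfne
          have hvl : ∀ y ∈ v, y ∈ P ∧ lev y < lev (Ltr.n w) :=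
            fun y hy => ⟨hv y hy, by rw [hz1]; exact hζv y hy⟩
          have hww : w = w' := hS.n2 w w' hz hz' (by rw [hz1, hz2]) v hvl hpair
          subst hww
          have hv0 : v ≠ [] := fun h => htriv ⟨h, rfl⟩
          have hadj : Adj {y | y ∈ v} [] w := by
            rcases hpair with ⟨h1, h2⟩ | ⟨h1, h2⟩
            · exact fix_adj hL _ v rfl hv0 hr hv [] w om_nil (hP w hz).1 (hP w hz).2.1.symm h1 h2
            · exact swap_adj hL _ v rfl hv0 hr hv [] w om_nil (hP w hz).1 (hP w hz).2.1.symm h1 h2
          exact hS.n1 w hz (hadj.mono fun y hy => hvl y hy)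

end

end Pool.Agent.K7.H87.BL
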