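import Mathlib
import Pool.Agent.K7.H87.BL.Uni

/-!
# The set of letters of the free Bol loop of exponent two
-/

set_option autoImplicit false

namespace Pool.Agent.K7.H87.BL

universe u

variable {X : Type u}

/-- equivalence of the pairs `([], w)` and `([], w')` -/
def Eqv (P : Set (Ltr X)) (w w' : List (Ltr X)) : Prop :=
  ∃ k : List (Ltr X), (∀ y ∈ k, y ∈ P) ∧
    ((fr k [] = [] ∧ fr k w = w') ∨ (fr k [] = w' ∧ fr k w = []))

/-- a representative of the pairs -/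
noncomputable def rep (P : Set (Ltr X)) (w : List (Ltr X)) : List (Ltr X) :=
  Classical.epsilon fun w' => Om P w' ∧ Eqv P w w'

theorem Eqv.refl (P : Set (Ltr X)) (w : List (Ltr X)) : Eqv P w w :=
  ⟨[], by simp, Or.inl ⟨rfl, rfl⟩⟩

theorem Eqv.symm {P : Set (Ltr X)} (hP : Cl P) {w w' : List (Ltr X)} (hw : Om P w)
    (h : Eqv P w w') : Eqv P w' w := by
  obtain ⟨k, hk, h⟩ := h
  refine ⟨k.reverse, fun y hy => hk y (List.mem_reverse.1 hy), ?_⟩
  rw [fr_reverse, fr_reverse]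
  rcases h with ⟨h1, h2⟩ | ⟨h1, h2⟩
  · left
    constructor
    · conv_lhs => rw [← h1]
      exact br_fr hP k hk om_nil
    · rw [← h2]; exact br_fr hP k hk hw
  · right
    constructor
    · conv_lhs => rw [← h2]
      exact br_fr hP k hk hw
    · rw [← h1]; exact br_fr hP k hk om_nil

theorem Eqv.trans {P : Set (Ltr X)} {w w' w'' : List (Ltr X)} (h : Eqv P w w')
    (h' : Eqv P w' w'') : Eqv P w w'' := by
  obtain ⟨k, hk, h⟩ := h
  obtain ⟨k', hk', h'⟩ := h'
  refine ⟨k' ++ k, ?_, ?_⟩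
  · intro y hy
    rcases List.mem_append.1 hy with hy | hy
    · exact hk' y hy
    · exact hk y hy
  rw [fr_append, fr_append]
  rcases h with ⟨h1, h2⟩ | ⟨h1, h2⟩ <;> rw [h1, h2]
  · exact h'
  · exact h'.elim (fun ⟨a, b⟩ => Or.inr ⟨b, a⟩) (fun ⟨a, b⟩ => Or.inl ⟨b, a⟩)

theorem rep_spec {P : Set (Ltr X)} {w : List (Ltr X)} (hw : Om P w) :
    Om P (rep P w) ∧ Eqv P w (rep P w) :=
  Classical.epsilon_spec (p := fun w' => Om P w' ∧ Eqv P w w') ⟨w, hw, Eqv.refl P w⟩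

theorem rep_eq {P : Set (Ltr X)} (hP : Cl P) {w w' : List (Ltr X)} (hw : Om P w)
    (_hw' : Om P w') (h : Eqv P w w') : rep P w = rep P w' := by
  unfold rep
  congr 1
  funext v
  apply propext
  exact and_congr_right fun _ => ⟨fun h1 => (h.symm hP hw).trans h1, fun h1 => h.trans h1⟩

/-- the stages -/
def St (X : Type u) : ℕ → Set (Ltr X)
  | 0 => Set.range Ltr.g
  | k + 1 => St X k ∪ {z | ∃ w, z = Ltr.n w ∧ Om (St X k) w ∧ w ≠ [] ∧ ¬ Adj (St X k) [] w ∧
      rep (St X k) w = w}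

/-- the set of letters -/
def AA (X : Type u) : Set (Ltr X) := {z | ∃ k, z ∈ St X k}

/-- the level of a letter -/
noncomputable def lev (z : Ltr X) : ℕ := sInf {k | z ∈ St X k}

theorem St_mono {k m : ℕ} (h : k ≤ m) : St X k ⊆ St X m := by
  induction h with
  | refl => exact fun _ h => h
  | step _ ih => exact fun z hz => Or.inl (ih hz)

theorem mem_lev {z : Ltr X} (h : z ∈ AA X) : z ∈ St X (lev z) :=
  Nat.sInf_mem (s := {k | z ∈ St X k}) h

theorem lev_le {z : Ltr X} {k : ℕ} (h : z ∈ St X k) : lev z ≤ k :=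
  Nat.sInf_le (s := {k | z ∈ St X k}) h

theorem St_AA (k : ℕ) : St X k ⊆ AA X := fun _ h => ⟨k, h⟩

theorem n_mem {w : List (Ltr X)} (h : Ltr.n w ∈ AA X) : ∃ k, lev (Ltr.n w) = k + 1 ∧
    Om (St X k) w ∧ w ≠ [] ∧ ¬ Adj (St X k) [] w ∧ rep (St X k) w = w := by
  have h1 := mem_lev h
  cases hk : lev (Ltr.n w) with
  | zero =>
    rw [hk] at h1
    obtain ⟨x, hx⟩ := h1
    exact absurd hx fun h => Ltr.g_ne_n h
  | succ k =>
    rw [hk] at h1
    rcases h1 with h1 | ⟨w', hw', h2⟩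
    · have := lev_le h1
      omega
    · obtain rfl := Ltr.n_inj hw'
      exact ⟨k, rfl, h2⟩

theorem St_cl (m : ℕ) : Cl (St X m) := by
  intro w hw
  obtain ⟨k, h1, h2, h3, -, -⟩ := n_mem (St_AA m hw)
  have h4 := lev_le hw
  refine ⟨h2.mono (St_mono (by omega)), h3, fun h5 => ?_⟩
  have := lev_le (h2.2 _ h5)
  omega

theorem AA_cl : Cl (AA X) := by
  intro w hw
  obtain ⟨k, h1, h2, h3, -, -⟩ := n_mem hw
  refine ⟨h2.mono (St_AA k), h3, fun h5 => ?_⟩
  have := lev_le (h2.2 _ h5)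
  omega

theorem AA_shp : Shp (AA X) lev where
  cl := AA_cl
  lt := by
    intro w hw y hy
    obtain ⟨k, h1, h2, h3, -, -⟩ := n_mem hw
    have := lev_le (h2.2 _ hy)
    omega
  n1 := by
    intro w hw h
    obtain ⟨k, h1, h2, h3, h4, -⟩ := n_mem hw
    apply h4
    apply h.mono
    rintro y ⟨hy, hlt⟩
    exact St_mono (show lev y ≤ k by omega) (mem_lev hy)
  n2 := by
    intro w w' hw hw' hlev k hk h
    obtain ⟨j, h1, h2, h3, h4, h5⟩ := n_mem hw
    obtain ⟨j', h1', h2', h3', h4', h5'⟩ := n_mem hw'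
    have hj : j' = j := by omega
    subst hj
    have he : Eqv (St X j') w w' :=
      ⟨k, fun y hy => St_mono (show lev y ≤ j' by have := (hk y hy).2; omega)
        (mem_lev (hk y hy).1), h⟩
    rw [← h5, ← h5', rep_eq (St_cl j') h2 h2' he]

/-- adjacency is invariant under the equivalence of pairs -/
theorem adj_eqv {P : Set (Ltr X)} (hP : Cl P) {w w' : List (Ltr X)} (_hw : Om P w)
    (_hw' : Om P w') (he : Eqv P w w') (h : Adj P [] w) : Adj P [] w' := by
  obtain ⟨k, hk, hk2⟩ := he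
  have h1 := h.run hP (fun _ h => h) om_nil hk
  rcases hk2 with ⟨h2, h3⟩ | ⟨h2, h3⟩
  · rw [h2, h3] at h1; exact h1
  · rw [h2, h3] at h1; exact h1.symm hP (fun _ h => h) _hw'

theorem exists_stage {c : List (Ltr X)} (hc : ∀ z ∈ c, z ∈ AA X) : ∃ m, ∀ z ∈ c, z ∈ St X m := by
  induction c with
  | nil => exact ⟨0, by simp⟩
  | cons z c ih =>
    obtain ⟨m, hm⟩ := ih fun y hy => hc y (List.mem_cons_of_mem _ hy)
    obtain ⟨k, hk⟩ := hc z List.mem_cons_self
    refine ⟨max m k, fun y hy => ?_⟩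
    rcases List.mem_cons.1 hy with rfl | hy
    · exact St_mono (le_max_right m k) hk
    · exact St_mono (le_max_left m k) (hm y hy)

/-- any two points are adjacent -/
theorem adj_all {c : List (Ltr X)} (hc : Om (AA X) c) (h0 : c ≠ []) : Adj (AA X) [] c := by
  obtain ⟨m, hm⟩ := exists_stage hc.2
  have hcm : Om (St X m) c := ⟨hc.1, hm⟩
  by_cases hA : Adj (St X m) [] c
  · exact hA.mono (St_AA m)
  have hP := St_cl (X := X) m
  obtain ⟨h1, h2⟩ := rep_spec hcm
  set w := rep (St X m) c with hw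
  have h3 := h2.symm hP hcm
  have hw0 : w ≠ [] := by
    intro h
    rw [h] at h3
    obtain ⟨k, hk, hk2⟩ := h3
    rcases hk2 with ⟨h4, h5⟩ | ⟨h4, h5⟩
    · exact h0 (h5.symm.trans h4)
    · exact h0 (h4.symm.trans h5)
  have hn : ¬ Adj (St X m) [] w := fun h => hA (adj_eqv hP h1 hcm h3 h)
  have hr : rep (St X m) w = w := by
    conv_rhs => rw [hw]
    exact (rep_eq hP hcm h1 h2).symm
  have hmem : Ltr.n w ∈ St X (m + 1) := Or.inr ⟨w, rfl, h1, hw0, hn, hr⟩
  have h4 : Adj (AA X) [] w := ⟨[], Ltr.n w, by simp, St_AA _ hmem, act_core1.symm⟩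
  have h5 : Eqv (AA X) w c := by
    obtain ⟨k, hk, hk2⟩ := h3
    exact ⟨k, fun y hy => St_AA m (hk y hy), hk2⟩
  exact adj_eqv AA_cl (h1.mono (St_AA m)) hc h5 h4

end Pool.Agent.K7.H87.BL
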