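import Mathlib
import Pool.Agent.K7.H87.BL.Stg
import Pool.Agent.K7.H87.BL.Gau

/-!
# The free Bol loop of exponent two
-/

set_option autoImplicit false

namespace Pool.Agent.K7.H87.BL

universe u v

/-- sharply transitive sets of involutions which are closed under conjugation -/
structure TS {Ω : Type u} (o : Ω) (T : Set (Ω → Ω)) : Prop where
  ex : ∀ c, ∃ f ∈ T, f o = c
  un : ∀ f ∈ T, ∀ g ∈ T, ∀ x, f x = g x → f = g
  cj : ∀ f ∈ T, ∀ g ∈ T, f ∘ g ∘ f ∈ T
  inv : ∀ f ∈ T, ∀ x, f (f x) = x
  one : id ∈ T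

namespace TS

variable {Ω : Type u} {o : Ω} {T : Set (Ω → Ω)} (h : TS o T)

/-- the right multiplications -/
noncomputable def R (c : Ω) : Ω → Ω := (h.ex c).choose

theorem R_mem (c : Ω) : h.R c ∈ T := (h.ex c).choose_spec.1

theorem R_o (c : Ω) : h.R c o = c := (h.ex c).choose_spec.2

theorem R_eq {f : Ω → Ω} (hf : f ∈ T) : h.R (f o) = f :=
  h.un _ (h.R_mem _) _ hf o (h.R_o _)

include h in
theorem tr (a b : Ω) : ∃ f ∈ T, f a = b := by
  refine ⟨h.R a ∘ h.R (h.R a b) ∘ h.R a, h.cj _ (h.R_mem _) _ (h.R_mem _), ?_⟩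
  have h1 : h.R a a = o := by
    conv_lhs => rw [← h.R_o a]
    rw [h.R_o a]
    have := h.inv _ (h.R_mem a) o
    rwa [h.R_o] at this
  simp only [Function.comp_apply]
  rw [h1, h.R_o, h.inv _ (h.R_mem a)]

/-- the loop -/
@[reducible] noncomputable def loop : BolLoop Ω where
  mul p c := h.R c p
  one := o
  one_mul' x := h.R_o x
  mul_one' x := by
    show h.R o x = x
    have h1 : h.R o = id := h.R_eq h.one
    rw [h1]; rfl
  ldiv a b := by
    obtain ⟨f, hf, hfa⟩ := h.tr a b
    refine ⟨f o, ?_, fun x hx => ?_⟩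
    · show h.R (f o) a = b
      rw [h.R_eq hf, hfa]
    · have h1 : h.R x = f := h.un _ (h.R_mem x) _ hf a (by rw [hfa]; exact hx)
      rw [← h1, h.R_o]
  rdiv a b := by
    refine ⟨h.R a b, h.inv _ (h.R_mem a) b, fun y hy => ?_⟩
    have h1 : h.R a (h.R a y) = y := h.inv _ (h.R_mem a) y
    have hy' : h.R a y = b := hy
    rw [hy'] at h1
    exact h1.symm
  bol x y z := by
    show h.R y (h.R z (h.R y x)) = h.R (h.R y (h.R z y)) x
    have h1 := h.R_eq (h.cj _ (h.R_mem y) _ (h.R_mem z))
    simp only [Function.comp_apply, h.R_o] at h1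
    rw [h1]; rfl
  sq x := by
    show h.R x x = o
    have := h.inv _ (h.R_mem x) o
    rwa [h.R_o] at this

end TS

variable {X : Type u}

/-- the points of the free loop -/
def Pt (X : Type u) : Type u := {v : List (Ltr X) // Om (AA X) v}

/-- the letters of the free loop -/
def Lt (X : Type u) : Type u := {z : Ltr X // z ∈ AA X}

/-- the base point -/
def pt0 : Pt X := ⟨[], om_nil⟩

/-- underlying letters -/
def uv (l : List (Lt X)) : List (Ltr X) := l.map Subtype.val

theorem uv_mem {l : List (Lt X)} : ∀ y ∈ uv l, y ∈ AA X := by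
  intro y hy
  obtain ⟨z, -, rfl⟩ := List.mem_map.1 hy
  exact z.2

theorem uv_append (l l' : List (Lt X)) : uv (l ++ l') = uv l ++ uv l' := by
  induction l with
  | nil => rfl
  | cons z l ih => exact congrArg (z.1 :: ·) ih

theorem uv_reverse (l : List (Lt X)) : uv l.reverse = (uv l).reverse := by
  induction l with
  | nil => rfl
  | cons z l ih =>
    rw [List.reverse_cons, uv_append, ih]
    show _ = (z.1 :: uv l).reverse
    rw [List.reverse_cons]
    rfl

theorem uv_inj {l l' : List (Lt X)} (h : uv l = uv l') : l = l' :=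
  List.map_injective_iff.2 Subtype.val_injective h

theorem uv_ex {l : List (Ltr X)} (h : ∀ y ∈ l, y ∈ AA X) : ∃ l' : List (Lt X), uv l' = l := by
  induction l with
  | nil => exact ⟨[], rfl⟩
  | cons z l ih =>
    obtain ⟨l', hl'⟩ := ih fun y hy => h y (List.mem_cons_of_mem _ hy)
    exact ⟨⟨z, h z List.mem_cons_self⟩ :: l', congrArg (z :: ·) hl'⟩

/-- the reflections -/
def TT (X : Type u) : Set (Pt X → Pt X) :=
  {f | f = id ∨ ∃ (l : List (Lt X)) (z : Lt X), ∀ p, (f p).1 = br (uv l) (act z.1 (fr (uv l) p.1))}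

theorem refl_om (l : List (Lt X)) (z : Lt X) {p : List (Ltr X)} (hp : Om (AA X) p) :
    Om (AA X) (br (uv l) (act z.1 (fr (uv l) p))) :=
  br_om AA_cl _ uv_mem (act_om AA_cl z.2 (fr_om AA_cl uv_mem hp))

/-- the reflection as a map -/
noncomputable def mkR (l : List (Lt X)) (z : Lt X) (p : Pt X) : Pt X :=
  ⟨br (uv l) (act z.1 (fr (uv l) p.1)), refl_om l z p.2⟩

theorem mkR_mem (l : List (Lt X)) (z : Lt X) : mkR l z ∈ TT X := Or.inr ⟨l, z, fun _ => rfl⟩

theorem TT_ts : TS (pt0 : Pt X) (TT X) where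
  ex := by
    intro c
    by_cases h0 : c.1 = []
    · exact ⟨id, Or.inl rfl, Subtype.ext h0.symm⟩
    · obtain ⟨l, z, h1, h2, h3⟩ := adj_all c.2 h0
      obtain ⟨l', rfl⟩ := uv_ex h1
      exact ⟨mkR l' ⟨z, h2⟩, mkR_mem _ _, Subtype.ext h3.symm⟩
  un := by
    have key : ∀ (l : List (Lt X)) (z : Lt X) (x : Pt X),
        br (uv l) (act z.1 (fr (uv l) x.1)) ≠ x.1 := by
      intro l z x h
      have h1 := congrArg (fr (uv l)) h
      rw [fr_br AA_cl _ uv_mem (act_om AA_cl z.2 (fr_om AA_cl uv_mem x.2))] at h1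
      exact act_ne AA_cl z.2 (fr_om AA_cl uv_mem x.2) h1
    intro f hf g hg x hx
    rcases hf with rfl | ⟨l, z, hf⟩ <;> rcases hg with rfl | ⟨l', z', hg⟩
    · rfl
    · exfalso
      apply key l' z' x
      rw [← hg, ← hx]; rfl
    · exfalso
      apply key l z x
      rw [← hf, hx]; rfl
    · funext q
      apply Subtype.ext
      rw [hf, hg]
      have h1 : br (uv l) (act z.1 (fr (uv l) x.1)) = br (uv l') (act z'.1 (fr (uv l') x.1)) := by
        rw [← hf, ← hg, hx]
      set v := uv l' ++ (uv l).reverse with hv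
      have hvm : ∀ y ∈ v, y ∈ AA X := by
        intro y hy
        rcases List.mem_append.1 hy with h | h
        · exact uv_mem y h
        · exact uv_mem y (List.mem_reverse.1 h)
      have e1 : ∀ x, Om (AA X) x → fr v (fr (uv l) x) = fr (uv l') x := by
        intro x hx
        rw [hv, fr_append, fr_reverse, br_fr AA_cl _ uv_mem hx]
      have e2 : ∀ x, br v x = fr (uv l) (br (uv l') x) := by
        intro x
        rw [hv, br_append]
        have := fr_reverse (uv l).reverse (br (uv l') x)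
        rw [List.reverse_reverse] at this
        exact this.symm
      have h2 : act z.1 (fr (uv l) x.1) = br v (act z'.1 (fr v (fr (uv l) x.1))) := by
        rw [e1 _ x.2, e2, ← h1, fr_br AA_cl _ uv_mem (act_om AA_cl z.2 (fr_om AA_cl uv_mem x.2))]
      have h3 := sharp AA_shp v.length v rfl hvm z.1 z.2 z'.1 z'.2 _
        (fr_om AA_cl uv_mem x.2) h2 (fr (uv l) q.1) (fr_om AA_cl uv_mem q.2)
      rw [h3, e1 _ q.2, e2, br_fr AA_cl _ uv_mem (refl_om l' z' q.2)]
  cj := by
    intro f hf g hg
    have inv : ∀ f ∈ TT X, f ∘ f = id := by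
      rintro f (rfl | ⟨l, z, hf⟩)
      · rfl
      · funext p
        apply Subtype.ext
        show (f (f p)).1 = p.1
        rw [hf, hf, fr_br AA_cl _ uv_mem (act_om AA_cl z.2 (fr_om AA_cl uv_mem p.2)),
          act_act AA_cl z.2 (fr_om AA_cl uv_mem p.2), br_fr AA_cl _ uv_mem p.2]
    rcases hf with rfl | ⟨l, z, hf⟩
    · exact hg
    rcases hg with rfl | ⟨l', z', hg⟩
    · left
      exact inv f (Or.inr ⟨l, z, hf⟩)
    · right
      refine ⟨l' ++ (l.reverse ++ (z :: l)), z', fun p => ?_⟩
      have e : uv (l' ++ (l.reverse ++ (z :: l))) =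
          uv l' ++ ((uv l).reverse ++ (z.1 :: uv l)) := by
        rw [uv_append, uv_append, uv_reverse]; rfl
      rw [e, fr_append, fr_append, fr_reverse, br_append, br_append]
      have h3 : ∀ v, br (uv l).reverse v = fr (uv l) v := by
        intro v
        have := fr_reverse (uv l).reverse v
        rw [List.reverse_reverse] at this
        exact this.symm
      rw [h3]
      show (f (g (f p))).1 = br (uv l) (act z.1 (fr (uv l) (br (uv l') (act z'.1
        (fr (uv l') (br (uv l) (act z.1 (fr (uv l) p.1))))))))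
      rw [hf, hg, hf]
  inv := by
    rintro f (rfl | ⟨l, z, hf⟩) p
    · rfl
    · apply Subtype.ext
      rw [hf, hf, fr_br AA_cl _ uv_mem (act_om AA_cl z.2 (fr_om AA_cl uv_mem p.2)),
        act_act AA_cl z.2 (fr_om AA_cl uv_mem p.2), br_fr AA_cl _ uv_mem p.2]
  one := Or.inl rfl

/-- the free Bol loop of exponent two -/
noncomputable instance ptLoop : BolLoop (Pt X) := TT_ts.loop

theorem pt_one : ((1 : Pt X)).1 = [] := rfl

theorem pt_mul (p c : Pt X) : p * c = TT_ts.R c p := rfl

/-- the point of a letter -/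
noncomputable def zt (z : Lt X) : Pt X := ⟨act z.1 [], act_om AA_cl z.2 om_nil⟩

theorem mul_zt (p : Pt X) (z : Lt X) : (p * zt z).1 = act z.1 p.1 := by
  rw [pt_mul]
  have h1 : zt z = mkR [] z (pt0 : Pt X) := rfl
  rw [h1, TT_ts.R_eq (mkR_mem [] z)]
  rfl

theorem rn_zt (l : List (Lt X)) (p : Pt X) : (rn zt l p).1 = fr (uv l) p.1 := by
  induction l with
  | nil => rfl
  | cons z l ih =>
    show (rn zt l p * zt z).1 = act z.1 (fr (uv l) p.1)
    rw [mul_zt, ih]

theorem ri_zt (l : List (Lt X)) : ∀ p : Pt X, (ri zt l p).1 = br (uv l) p.1 := by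
  induction l with
  | nil => intro p; rfl
  | cons z l ih =>
    intro p
    show (ri zt l (p * zt z)).1 = br (uv l) (act z.1 p.1)
    rw [ih, mul_zt]

/-- the word of a point -/
noncomputable def wd (p : Pt X) : List (Lt X) := (uv_ex p.2.2).choose

theorem uv_wd (p : Pt X) : uv (wd p) = p.1 := (uv_ex p.2.2).choose_spec

open Classical in
/-- the frame of the free loop -/
noncomputable def frame (X : Type u) : Frame (Pt X) (Lt X) where
  ζ := zt
  lev z := lev z.1
  core z := if ∃ w, z.1 = Ltr.n w then some (wd (zt z)) else none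
  word := wd
  word_one := uv_inj (by rw [uv_wd]; rfl)
  rn_word p := by
    apply Subtype.ext
    rw [rn_zt, uv_wd]
    exact fr_val _ p.2.1
  mv p z := by
    rcases act_cases z.1 p.1 with ⟨w, hw, h1⟩ | ⟨-, -, h1⟩ | ⟨-, x', h1, h2⟩
    · right; right
      refine ⟨wd (zt z), if_pos ⟨w, hw⟩, ?_⟩
      rcases h1 with h1 | h1
      · left; exact Subtype.ext h1
      · right
        apply Subtype.ext
        show p.1 = act z.1 []
        rw [hw, act_core1, h1]
    · left
      apply uv_inj
      rw [uv_wd, mul_zt, h1]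
      show _ = z.1 :: uv (wd p)
      rw [uv_wd]
    · right; left
      apply uv_inj
      rw [uv_wd]
      show _ = z.1 :: uv (wd (p * zt z))
      rw [uv_wd, mul_zt, h2, h1]
  core_word z w hw := by
    split_ifs at hw with h
    exact Option.some.inj hw
  core_lev z w hw y hy := by
    split_ifs at hw with h
    obtain ⟨w0, hw0⟩ := h
    have h1 := Option.some.inj hw
    subst h1
    have h2 : y.1 ∈ uv (wd (zt z)) := List.mem_map_of_mem hy
    rw [uv_wd] at h2
    have h3 : (zt z).1 = w0 := by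
      show act z.1 [] = w0
      rw [hw0, act_core1]
    rw [h3] at h2
    have h4 := AA_shp.lt w0 (hw0 ▸ z.2) y.1 h2
    rwa [← hw0] at h4
  core_pos z w hw := by
    split_ifs at hw with h
    obtain ⟨w0, hw0⟩ := h
    obtain ⟨k, h1, -⟩ := n_mem (w := w0) (hw0 ▸ z.2)
    rw [hw0, h1]
    omega
  refl t ht := by
    rcases TT_ts.R_mem t with h | ⟨l, z, h⟩
    · exfalso
      apply ht
      have h1 := TT_ts.R_o t
      rw [h] at h1
      exact h1.symm
    · refine ⟨l, z, fun p => ?_⟩
      apply Subtype.ext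
      rw [ri_zt, mul_zt, rn_zt]
      exact h p

end Pool.Agent.K7.H87.BL
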