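import Mathlib
import Pool.Agent.K7.H87.BL.Pnt

/-!
# Free Bol loops of exponent two and their subloops
-/

set_option autoImplicit false

namespace Pool.Agent.K7.H87.BL

universe u v

/-- A subloop is a Bol loop of exponent two. -/
instance Subloop.toBolLoop {B : Type u} [BolLoop B] (H : Subloop B) : BolLoop H.carrier where
  mul x y := ⟨x.1 * y.1, H.mul_mem _ x.2 _ y.2⟩
  one := ⟨1, H.one_mem⟩
  one_mul' x := Subtype.ext (one_mul' x.1)
  mul_one' x := Subtype.ext (mul_one' x.1)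
  ldiv a b := by
    obtain ⟨c, hc, hu⟩ := BolLoop.ldiv a.1 b.1
    exact ⟨⟨c, H.ldiv_mem _ a.2 _ b.2 c hc⟩, Subtype.ext hc,
      fun y hy => Subtype.ext (hu y.1 (congrArg Subtype.val hy))⟩
  rdiv a b := by
    obtain ⟨c, hc, hu⟩ := BolLoop.rdiv a.1 b.1
    exact ⟨⟨c, H.rdiv_mem _ a.2 _ b.2 c hc⟩, Subtype.ext hc,
      fun y hy => Subtype.ext (hu y.1 (congrArg Subtype.val hy))⟩
  bol x y z := Subtype.ext (bol x.1 y.1 z.1)
  sq x := Subtype.ext (sq x.1)

/-- `B` is the free Bol loop of exponent two with the free generators `ι x`, `x ∈ X`: every map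
from `X` to a Bol loop `Q` of exponent two extends to exactly one homomorphism from `B` to `Q`. -/
def IsFree {X B : Type u} [BolLoop B] (ι : X → B) : Prop :=
  ∀ (Q : Type u) [BolLoop Q] (f : X → Q),
    ∃! F : B → Q, (∀ x y, F (x * y) = F x * F y) ∧ ∀ x, F (ι x) = f x

theorem hom_one {B Q : Type*} [BolLoop B] [BolLoop Q] {F : B → Q}
    (h : ∀ x y, F (x * y) = F x * F y) : F 1 = 1 := by
  apply lcan (a := F 1)
  rw [← h, mul_one', mul_one']

theorem IsFree.range {X B : Type u} [BolLoop B] {ι : X → B} (h : IsFree ι) :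
    IsFree (fun y : Set.range ι => (y : B)) := by
  intro Q _ f
  obtain ⟨F, ⟨h1, h2⟩, h3⟩ := h Q (fun x => f ⟨ι x, x, rfl⟩)
  refine ⟨F, ⟨h1, ?_⟩, fun G hG => h3 G ⟨hG.1, fun x => hG.2 ⟨ι x, x, rfl⟩⟩⟩
  rintro ⟨_, x, rfl⟩
  exact h2 x

variable {X : Type u}

open Classical in
/-- subloops of the explicit free loop are free -/
theorem pt_sub (S : Subloop (Pt X)) : ∃ (I : Type u) (j : I → S.carrier), IsFree j := by
  refine ⟨{y : List (Lt X) // (frame X).Free S y},
    fun y => ⟨(frame X).lamV S y.1, Frame.lamV_mem y.1⟩, ?_⟩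
  intro Q _ f
  obtain ⟨F, h1, h2⟩ := Frame.free_sub (A := frame X) (S := S) (Q := Q)
    (fun y => if h : (frame X).Free S y then f ⟨y, h⟩ else 1)
  refine ⟨fun s => F s.1, ⟨fun x y => h1 x.1 x.2 y.1 y.2, fun y => ?_⟩, ?_⟩
  · show F ((frame X).lamV S y.1) = f y
    rw [h2 y.1 y.2, dif_pos y.2]
  · rintro G ⟨hG1, hG2⟩
    funext s
    have h3 := Frame.hom_ext (A := frame X) (S := S)
      (fun p => if h : p ∈ S.carrier then G ⟨p, h⟩ else 1) F (by
        intro x hx y hy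
        simp only [hx, hy, S.mul_mem x hx y hy, dif_pos]
        exact hG1 ⟨x, hx⟩ ⟨y, hy⟩) h1 (by
        intro y hy
        have hm : (frame X).lamV S y ∈ S.carrier := Frame.lamV_mem y
        simp only [hm, dif_pos]
        rw [h2 y hy, dif_pos hy]
        exact hG2 ⟨y, hy⟩) s.1 s.2
    simp only [s.2, dif_pos] at h3
    exact h3

/-- the generators -/
noncomputable def gn (x : X) : Pt X := zt ⟨Ltr.g x, 0, x, rfl⟩

theorem top_din {δ : List (Lt X)} (h : Din ((frame X).wl (topS (Pt X))) δ) : δ = [] := by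
  cases δ with
  | nil => rfl
  | cons z δ => exact absurd trivial h.2.2

theorem top_lam (z : Lt X) : (frame X).lamV (topS (Pt X)) [z] = zt z := by
  have h1 : VL ((frame X).wl (topS (Pt X))) [z] := ⟨z, [], rfl, trivial, by simp⟩
  rw [Frame.lamV_eq h1]
  have h2 : ¬ Din ((frame X).wl (topS (Pt X))) [z] := fun h => h.2.2 trivial
  have h3 : (frame X).wl (topS (Pt X)) [] z := trivial
  simp only [Frame.lamS, h2, h3, if_false, if_true]
  rfl

open Classical in
/-- the explicit free loop is free -/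
theorem pt_free (X : Type u) : IsFree (gn : X → Pt X) := by
  intro Q _ f
  obtain ⟨F, h1, h2⟩ := Frame.free_sub (A := frame X) (S := topS (Pt X)) (Q := Q)
    (fun y => match y with
      | [z] => (match z.1 with
        | Ltr.g x => f x
        | Ltr.m _ _ => 1)
      | _ => 1)
  have hfree : ∀ y, (frame X).Free (topS (Pt X)) y → ∃ x : X, y = [⟨Ltr.g x, 0, x, rfl⟩] := by
    rintro y ⟨z, δ, rfl, h3, h4, h5, h6⟩
    obtain rfl := top_din h3
    have h7 : (frame X).core z = none := by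
      rcases h6 with h6 | ⟨h6, -⟩
      · exact h6
      · exact absurd trivial h6
    obtain ⟨z, hz⟩ := z
    rcases Ltr.g_or_n z with ⟨x, rfl⟩ | ⟨w, rfl⟩
    · exact ⟨x, rfl⟩
    · exfalso
      have h8 : (frame X).core ⟨Ltr.n w, hz⟩ = some (wd (zt ⟨Ltr.n w, hz⟩)) := if_pos ⟨w, rfl⟩
      rw [h8] at h7
      exact absurd h7 (by simp)
  have hfree2 : ∀ x : X, (frame X).Free (topS (Pt X)) [⟨Ltr.g x, 0, x, rfl⟩] := by
    intro x
    refine ⟨_, _, rfl, trivial, by simp, fun h => h.1.2.2 trivial, Or.inl ?_⟩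
    refine if_neg ?_
    rintro ⟨w, hw⟩
    exact Ltr.g_ne_n hw
  refine ⟨F, ⟨fun x y => h1 x trivial y trivial, fun x => ?_⟩, ?_⟩
  · have h3 := h2 _ (hfree2 x)
    rw [top_lam] at h3
    exact h3
  · rintro G ⟨hG1, hG2⟩
    funext s
    refine Frame.hom_ext (A := frame X) (S := topS (Pt X)) G F (fun x _ y _ => hG1 x y) h1 ?_ s
      trivial
    intro y hy
    obtain ⟨x, rfl⟩ := hfree y hy
    have h3 := h2 _ (hfree2 x)
    rw [top_lam] at h3 ⊢
    rw [h3]
    exact hG2 x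

/-- the preimage of a subloop -/
def pullS {B C : Type*} [BolLoop B] [BolLoop C] (ψ : C → B)
    (h : ∀ x y, ψ (x * y) = ψ x * ψ y) (H : Subloop B) : Subloop C where
  carrier := {p | ψ p ∈ H.carrier}
  one_mem := by
    show ψ 1 ∈ H.carrier
    rw [hom_one h]; exact H.one_mem
  mul_mem := fun x hx y hy => by
    show ψ (x * y) ∈ H.carrier
    rw [h]; exact H.mul_mem _ hx _ hy
  ldiv_mem := fun a ha b hb x hx => by
    show ψ x ∈ H.carrier
    exact H.ldiv_mem _ ha _ hb _ (by rw [← h, hx])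
  rdiv_mem := fun a ha b hb x hx => by
    show ψ x ∈ H.carrier
    exact H.rdiv_mem _ ha _ hb _ (by rw [← h, hx])

/-- freeness is transported by isomorphisms -/
theorem free_iso {B C : Type u} [BolLoop B] [BolLoop C] {I : Type u} {j : I → C} (hj : IsFree j)
    (φ : B → C) (ψ : C → B) (hφ : ∀ x y, φ (x * y) = φ x * φ y)
    (hψ : ∀ x y, ψ (x * y) = ψ x * ψ y) (e1 : ∀ b, ψ (φ b) = b) (e2 : ∀ c, φ (ψ c) = c) :
    IsFree (fun i => ψ (j i)) := by
  intro Q _ f
  obtain ⟨F, ⟨h1, h2⟩, h3⟩ := hj Q f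
  refine ⟨fun b => F (φ b), ⟨fun x y => ?_, fun i => ?_⟩, ?_⟩
  · show F (φ (x * y)) = _
    rw [hφ, h1]
  · show F (φ (ψ (j i))) = _
    rw [e2, h2]
  · rintro G ⟨hG1, hG2⟩
    have h4 := h3 (fun c => G (ψ c)) ⟨fun x y => by
      show G (ψ (x * y)) = _
      rw [hψ, hG1], fun i => hG2 i⟩
    funext b
    have h5 := congrFun h4 (φ b)
    rw [← h5, e1]

/-- **Every subloop of a free Bol loop of exponent two is free.** -/
theorem sub_free {X B : Type u} [BolLoop B] {ι : X → B} (h : IsFree ι) (H : Subloop B) :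
    ∃ (I : Type u) (j : I → H.carrier), IsFree j := by
  obtain ⟨φ, ⟨hφ1, hφ2⟩, -⟩ := h (Pt X) gn
  obtain ⟨ψ, ⟨hψ1, hψ2⟩, -⟩ := pt_free X B ι
  have e1 : ∀ b, ψ (φ b) = b := by
    obtain ⟨θ, -, h3⟩ := h B ι
    have h4 := h3 (fun b => ψ (φ b)) ⟨fun x y => by simp only [hφ1, hψ1],
      fun x => by simp only [hφ2, hψ2]⟩
    have h5 := h3 (fun b => b) ⟨fun _ _ => rfl, fun _ => rfl⟩
    intro b
    exact congrFun (h4.trans h5.symm) b
  have e2 : ∀ b, φ (ψ b) = b := by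
    obtain ⟨θ, -, h3⟩ := pt_free X (Pt X) gn
    have h4 := h3 (fun b => φ (ψ b)) ⟨fun x y => by simp only [hφ1, hψ1],
      fun x => by simp only [hφ2, hψ2]⟩
    have h5 := h3 (fun b => b) ⟨fun _ _ => rfl, fun _ => rfl⟩
    intro b
    exact congrFun (h4.trans h5.symm) b
  obtain ⟨I, j, hj⟩ := pt_sub (pullS ψ hψ1 H)
  have hS : ∀ b : H.carrier, φ b.1 ∈ (pullS ψ hψ1 H).carrier := fun b => by
    show ψ (φ b.1) ∈ H.carrier
    rw [e1]; exact b.2
  have h6 := free_iso (B := H.carrier) (C := (pullS ψ hψ1 H).carrier) hj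
    (fun b => ⟨φ b.1, hS b⟩) (fun c => ⟨ψ c.1, c.2⟩)
    (fun x y => Subtype.ext (hφ1 x.1 y.1)) (fun x y => Subtype.ext (hψ1 x.1 y.1))
    (fun b => Subtype.ext (e1 b.1)) (fun c => Subtype.ext (e2 c.1))
  exact ⟨I, _, h6⟩

end Pool.Agent.K7.H87.BL
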